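import Pool.Agent.Lib.GC95.Defs

namespace Pool.Agent.Lib.GC95

open Finset YoungDiagram

variable {m : ℕ}

def base (m x : ℕ) : ℕ := ∑ y ∈ range x, (y / m + 1)

def rk (m : ℕ) (c : ℕ × ℕ) : ℕ := base m (c.2 + m * c.1) + c.1

def nxt (m : ℕ) (c : ℕ × ℕ) : ℕ × ℕ :=
  if m ≤ c.2 then (c.1 + 1, c.2 - m) else (0, c.2 + m * c.1 + 1)

def cell (m N : ℕ) : ℕ × ℕ := (nxt m)^[N] (0, 0)

lemma base_succ (m x : ℕ) : base m (x + 1) = base m x + x / m + 1 := by
  rw [base, sum_range_succ]; rfl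

lemma base_add (m x k : ℕ) : base m x + k ≤ base m (x + k) := by
  induction k with
  | zero => rfl
  | succ k ih =>
    rw [← add_assoc, ← add_assoc, base_succ]
    generalize (x + k) / m = z
    omega

lemma base_mono (m : ℕ) {x y : ℕ} (h : x ≤ y) : base m x ≤ base m y := by
  obtain ⟨k, rfl⟩ := Nat.exists_eq_add_of_le h
  have := base_add m x k
  omega

lemma key_div (hm : 1 ≤ m) (i j : ℕ) : (j + m * i) / m = j / m + i :=
  Nat.add_mul_div_left j i hm

lemma rk_lt (hm : 1 ≤ m) (c : ℕ × ℕ) : rk m c < base m (c.2 + m * c.1 + 1) := by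
  rw [base_succ, key_div hm, rk]
  generalize c.2 / m = z
  omega

lemma rk_lt_iff (hm : 1 ≤ m) {c c' : ℕ × ℕ} : rk m c' < rk m c ↔
    c'.2 + m * c'.1 < c.2 + m * c.1 ∨ (c'.2 + m * c'.1 = c.2 + m * c.1 ∧ c'.1 < c.1) := by
  rcases lt_trichotomy (c'.2 + m * c'.1) (c.2 + m * c.1) with h | h | h
  · have := rk_lt hm c'
    have := base_mono m (Nat.add_one_le_of_lt h)
    simp only [h, true_or, iff_true]
    unfold rk at *; omega
  · unfold rk; rw [h]; omega
  · have := rk_lt hm c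
    have := base_mono m (Nat.add_one_le_of_lt h)
    unfold rk at *; omega

lemma rk_lt_base (hm : 1 ≤ m) {c : ℕ × ℕ} {x : ℕ} : rk m c < base m x ↔ c.2 + m * c.1 < x := by
  have := rk_lt_iff hm (c := (0, x)) (c' := c)
  simpa [rk] using this

lemma rk_inj (hm : 1 ≤ m) : Function.Injective (rk m) := by
  intro c c' h
  have h1 := (rk_lt_iff hm (c := c) (c' := c')).not.1 (by omega)
  have h2 := (rk_lt_iff hm (c := c') (c' := c)).not.1 (by omega)
  have h3 : c.1 = c'.1 := by omega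
  rw [h3] at h1 h2
  exact Prod.ext h3 (by omega)

lemma rk_nxt (hm : 1 ≤ m) (c : ℕ × ℕ) : rk m (nxt m c) = rk m c + 1 := by
  unfold nxt
  split_ifs with h
  · have : c.2 - m + m * (c.1 + 1) = c.2 + m * c.1 := by rw [mul_add]; omega
    simp only [rk, this]; omega
  · have := base_succ m (c.2 + m * c.1)
    rw [key_div hm, Nat.div_eq_of_lt (by omega)] at this
    simp only [rk, mul_zero, add_zero, this]; omega

lemma rk_zero (m : ℕ) : rk m (0, 0) = 0 := by simp [rk, base]

lemma rk_cell (hm : 1 ≤ m) (N : ℕ) : rk m (cell m N) = N := by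
  induction N with
  | zero => exact rk_zero m
  | succ N ih => rw [cell, Function.iterate_succ_apply', rk_nxt hm, ← cell, ih]

lemma cell_rk (hm : 1 ≤ m) (c : ℕ × ℕ) : cell m (rk m c) = c := rk_inj hm (rk_cell hm _)

lemma cell_succ (m N : ℕ) : cell m (N + 1) = nxt m (cell m N) := Function.iterate_succ_apply' _ _ _

lemma ext_row {γ γ' : YoungDiagram} (h : ∀ i, γ.rowLen i = γ'.rowLen i) : γ = γ' := by
  ext ⟨i, j⟩
  simp [mem_iff_lt_rowLen, h]

lemma rowLen_eq {γ : YoungDiagram} {i k : ℕ} (h : ∀ j, (i, j) ∈ γ ↔ j < k) : γ.rowLen i = k := by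
  have h1 := (h k).symm.trans mem_iff_lt_rowLen
  have h2 := (h (γ.rowLen i)).symm.trans mem_iff_lt_rowLen
  omega

lemma row_pos {γ : YoungDiagram} {i : ℕ} : 0 < γ.rowLen i ↔ i < γ.colLen 0 :=
  mem_iff_lt_rowLen.symm.trans mem_iff_lt_colLen

lemma card_rows {γ : YoungDiagram} {n : ℕ} (h : γ.rowLen n = 0) :
    γ.card = ∑ i ∈ range n, γ.rowLen i := by
  rw [YoungDiagram.card, card_eq_sum_card_fiberwise (f := Prod.fst) (t := range n)]
  · exact sum_congr rfl fun i _ => (rowLen_eq_card γ).symm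
  · rintro ⟨i, j⟩ hc
    have h1 : j < γ.rowLen i := mem_iff_lt_rowLen.1 (by simpa using hc)
    by_contra hi
    have := γ.rowLen_anti n i (by simpa using hi)
    omega

/-- The diagram with given row lengths. -/
def mkY (f : ℕ → ℕ) (hf : Antitone f) (n : ℕ) (_hn : f n = 0) : YoungDiagram where
  cells := (range n ×ˢ range (f 0)).filter fun c => c.2 < f c.1
  isLowerSet := by
    rintro ⟨i, j⟩ ⟨i', j'⟩ ⟨h1, h2⟩ h
    simp only [coe_filter, mem_product, mem_range, Set.mem_ofPred_eq] at h h1 h2 ⊢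
    have := hf h1
    omega

lemma rowLen_mkY (f : ℕ → ℕ) (hf : Antitone f) (n : ℕ) (hn : f n = 0) (i : ℕ) :
    (mkY f hf n hn).rowLen i = f i := by
  refine rowLen_eq fun j => ?_
  simp only [mkY, YoungDiagram.mem_mk, mem_filter, mem_product, mem_range]
  have h1 := hf (Nat.zero_le i)
  rcases lt_or_ge i n with h | h
  · omega
  · have := hf h; omega

/-- One more than the largest rank of a cell. -/
def lev (m : ℕ) (γ : YoungDiagram) : ℕ := γ.cells.sup fun c => rk m c + 1

lemma lev_le {γ : YoungDiagram} {N : ℕ} : lev m γ ≤ N ↔ ∀ c ∈ γ, rk m c < N := by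
  simp [lev, Finset.sup_le_iff]

lemma lt_lev {γ : YoungDiagram} {c : ℕ × ℕ} (h : c ∈ γ) : rk m c < lev m γ := lev_le.1 le_rfl c h

lemma card_eq_ranks (hm : 1 ≤ m) {γ : YoungDiagram} {N : ℕ} (h : lev m γ ≤ N) :
    γ.card = ((range N).filter fun k => cell m k ∈ γ).card := by
  refine card_nbij' (rk m) (cell m) (fun c hc => ?_) (fun k hk => ?_) (fun c _ => cell_rk hm c)
    (fun k _ => rk_cell hm k)
  · have hc' : c ∈ γ := by simpa using hc
    simpa [cell_rk hm, hc'] using lev_le.1 h c hc'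
  · simp only [coe_filter, Set.mem_ofPred_eq] at hk
    simpa using hk.2

lemma card_le_lev (hm : 1 ≤ m) (γ : YoungDiagram) : γ.card ≤ lev m γ := by
  rw [card_eq_ranks hm le_rfl]
  exact (card_filter_le _ _).trans (card_range _).le

lemma finite_lev (hm : 1 ≤ m) (N : ℕ) : {γ : YoungDiagram | lev m γ ≤ N}.Finite := by
  refine Set.Finite.of_finite_image (f := fun γ => γ.cells)
    ((((range N).image (cell m)).powerset.finite_toSet).subset ?_)
    (fun γ _ γ' _ h => YoungDiagram.ext h)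
  rintro _ ⟨γ, hγ, rfl⟩
  simp only [coe_powerset, Set.mem_preimage, Set.mem_powerset_iff, coe_subset]
  intro c hc
  exact mem_image.2 ⟨rk m c, mem_range.2 (lev_le.1 hγ c hc), cell_rk hm c⟩

lemma le_tri (hm : 1 ≤ m) {T γ : YoungDiagram} (hT : IsTri m T) : γ ≤ T ↔ lev m γ ≤ T.card := by
  have h1 : ∀ c ∈ T, ∀ c', rk m c' ≤ rk m c → c' ∈ T := by
    intro c hc c' h
    refine hT c hc c' ?_
    have := (rk_lt_iff hm (c := c') (c' := c)).not.1 (by omega)
    omega
  have h2 : T.card = lev m T := by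
    rw [card_eq_ranks hm le_rfl, filter_true_of_mem, card_range]
    intro k hk
    rw [mem_range, lev, Finset.lt_sup_iff] at hk
    obtain ⟨c, hc, h⟩ := hk
    exact h1 c hc _ (by rw [rk_cell hm]; omega)
  rw [h2, lev_le]
  refine ⟨fun h c hc => lt_lev (h hc), fun h c hc => ?_⟩
  have := h c hc
  rw [lev, Finset.lt_sup_iff] at this
  obtain ⟨c', hc', h'⟩ := this
  exact h1 c' hc' c (by omega)

/-- Cell form of the map. -/
def NuC (m : ℕ) (γ γ' : YoungDiagram) : Prop := (0, 0) ∈ γ' ∧ ∀ c, nxt m c ∈ γ' ↔ c ∈ γ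

lemma short_row (hm : 1 ≤ m) {γ : YoungDiagram} (h : ∀ i, γ.rowLen i < m → γ.rowLen (i + 1) = 0) :
    ∃ s, (∀ i < s, m ≤ γ.rowLen i) ∧ γ.rowLen s < m ∧ (∀ i, s < i → γ.rowLen i = 0) ∧
      ∑ j ∈ range m, γ.colLen j = m * s + γ.rowLen s := by
  have hex : ∃ s, γ.rowLen s < m := ⟨γ.colLen 0, by
    have := (row_pos (γ := γ) (i := γ.colLen 0)).not.2 (lt_irrefl _); omega⟩
  have h1 : ∀ i < Nat.find hex, m ≤ γ.rowLen i := fun i hi => not_lt.1 (Nat.find_min hex hi)
  have h2 := Nat.find_spec hex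
  generalize Nat.find hex = s at h1 h2
  have h3 : ∀ i, s < i → γ.rowLen i = 0 := fun i hi => by
    have := γ.rowLen_anti (s + 1) i hi
    have := h s h2
    omega
  refine ⟨s, h1, h2, h3, ?_⟩
  have h4 : ∀ j ∈ range m, γ.colLen j = s + if j < γ.rowLen s then 1 else 0 := by
    intro j hj
    rw [mem_range] at hj
    rw [← rowLen_transpose]
    refine rowLen_eq fun i => ?_
    rw [mem_transpose, Prod.swap_prod_mk, mem_iff_lt_rowLen]
    rcases lt_trichotomy i s with hi | hi | hi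
    · have := h1 i hi; omega
    · subst hi; split_ifs <;> omega
    · have := h3 i hi; split_ifs <;> omega
  rw [sum_congr rfl h4, sum_add_distrib, sum_const, card_range, smul_eq_mul, sum_boole]
  have : (range m).filter (fun j => j < γ.rowLen s) = range (γ.rowLen s) := by
    ext j; simp only [mem_filter, mem_range]; omega
  simp [this]

lemma short_mem {γ : YoungDiagram} {s : ℕ} (h1 : ∀ i < s, m ≤ γ.rowLen i) (h2 : γ.rowLen s < m)
    (h3 : ∀ i, s < i → γ.rowLen i = 0) {i j : ℕ} (hj : j < m) :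
    (i, j) ∈ γ ↔ j + m * i < m * s + γ.rowLen s := by
  rw [mem_iff_lt_rowLen]
  rcases lt_trichotomy i s with hi | hi | hi
  · have := h1 i hi
    have : m * (i + 1) ≤ m * s := Nat.mul_le_mul_left m hi
    rw [mul_add] at this
    omega
  · subst hi; omega
  · have := h3 i hi
    have : m * (s + 1) ≤ m * i := Nat.mul_le_mul_left m hi
    rw [mul_add] at this
    omega

lemma nu_iff (hm : 1 ≤ m) {γ γ' : YoungDiagram} : Nu m γ γ' ↔ NuC m γ γ' := by
  constructor
  · rintro ⟨h1, h2, h3⟩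
    obtain ⟨s, a1, a2, a3, a4⟩ := short_row hm h1
    refine ⟨by rw [mem_iff_lt_rowLen]; omega, ?_⟩
    rintro ⟨i, j⟩
    unfold nxt
    split_ifs with h
    · simp only [mem_iff_lt_rowLen, h3] at h ⊢; omega
    · rw [short_mem a1 a2 a3 (not_le.1 h), mem_iff_lt_rowLen]
      simp only; omega
  · rintro ⟨h0, h⟩
    have h1 : ∀ i, γ.rowLen i < m → γ.rowLen (i + 1) = 0 := by
      intro i hi
      by_contra hc
      have b1 := (h (i + 1, 0)).2 (mem_iff_lt_rowLen.2 (by omega))
      have b2 := (h (i, γ.rowLen i)).not.2 (by simp [mem_iff_lt_rowLen])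
      simp only [nxt, not_le.2 hi, show ¬ m ≤ 0 by omega, if_false, mem_iff_lt_rowLen,
        mul_add] at b1 b2
      omega
    obtain ⟨s, a1, a2, a3, a4⟩ := short_row hm h1
    refine ⟨h1, rowLen_eq fun j => ?_, fun i => rowLen_eq fun j => ?_⟩
    · rcases j with _ | j
      · simpa using h0
      · have b1 := h (j / m, j % m)
        have b2 := Nat.mod_lt j hm
        rw [short_mem a1 a2 a3 b2] at b1
        simp only [nxt, not_le.2 b2, if_false, Nat.mod_add_div] at b1
        rw [b1]; omega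
    · have b1 := h (i, j + m)
      simp only [nxt, Nat.le_add_left, if_true, Nat.add_sub_cancel, mem_iff_lt_rowLen] at b1
      rw [mem_iff_lt_rowLen, b1]; omega

lemma NuC.cell_iff {γ γ' : YoungDiagram} (h : NuC m γ γ') (k : ℕ) :
    cell m (k + 1) ∈ γ' ↔ cell m k ∈ γ := by rw [cell_succ, h.2]

lemma NuC.lev_eq (hm : 1 ≤ m) {γ γ' : YoungDiagram} (h : NuC m γ γ') :
    lev m γ' = lev m γ + 1 := by
  apply le_antisymm
  · refine lev_le.2 fun c hc => ?_
    rcases hk : rk m c with _ | k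
    · omega
    · rw [← cell_rk hm c, hk, h.cell_iff] at hc
      have := lt_lev (m := m) hc
      rw [rk_cell hm] at this
      omega
  · have h0 := lt_lev (m := m) h.1
    have : lev m γ ≤ lev m γ' - 1 := lev_le.2 fun c hc => by
      have := lt_lev (m := m) ((h.2 c).2 hc)
      rw [rk_nxt hm] at this
      omega
    omega

lemma NuC.card_eq (hm : 1 ≤ m) {γ γ' : YoungDiagram} (h : NuC m γ γ') :
    γ'.card = γ.card + 1 := by
  rw [card_eq_ranks hm (h.lev_eq hm).le, card_eq_ranks hm (γ := γ) le_rfl, card_filter,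
    card_filter, sum_range_succ']
  simp only [h.cell_iff]
  rw [if_pos (show cell m 0 ∈ γ' from h.1)]

end Pool.Agent.Lib.GC95
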