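import Mathlib

namespace Pool.Agent.Lib.GC95

/-- Number of cells with `m * leg ≤ arm ≤ m * leg + m`. -/
def dinvY (m : ℕ) (γ : YoungDiagram) : ℕ :=
  (γ.cells.filter fun c => m * (γ.colLen c.2 - c.1 - 1) ≤ γ.rowLen c.1 - c.2 - 1 ∧
    γ.rowLen c.1 - c.2 - 1 ≤ m * (γ.colLen c.2 - c.1 - 1) + m).card

/-- `γ'` arises from `γ`, which has at most one nonempty row shorter than `m`, by deleting the
first `m` columns and adding a new first row with one cell more than was deleted. -/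
def Nu (m : ℕ) (γ γ' : YoungDiagram) : Prop :=
  (∀ i, γ.rowLen i < m → γ.rowLen (i + 1) = 0) ∧
    γ'.rowLen 0 = (∑ j ∈ Finset.range m, γ.colLen j) + 1 ∧
    ∀ i, γ'.rowLen (i + 1) = γ.rowLen i - m

/-- `T` is an initial segment of the cells `(i, j)` ordered by `j + m * i` and then by `i`. -/
def IsTri (m : ℕ) (T : YoungDiagram) : Prop :=
  ∀ c ∈ T, ∀ c' : ℕ × ℕ, (c'.2 + m * c'.1 < c.2 + m * c.1 ∨
    (c'.2 + m * c'.1 = c.2 + m * c.1 ∧ c'.1 ≤ c.1)) → c' ∈ T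

open Classical in
/-- `γ` is the tail initiator of `μ`. -/
def IsTI (m : ℕ) (μ γ : YoungDiagram) : Prop :=
  ∀ i, γ.rowLen i = m * (μ.rowLen 0 + μ.colLen 0 - i) -
    if ∃ b < μ.colLen 0, i + μ.rowLen b = b + μ.rowLen 0 then 1 else 0

/-- The generating function of the members of `S` contained in `T`. -/
noncomputable def cat (m : ℕ) (T : YoungDiagram) (S : Set YoungDiagram)
    (q t : MvPolynomial (Fin 2) ℤ) : MvPolynomial (Fin 2) ℤ :=
  ∑ᶠ γ ∈ {γ ∈ S | γ ≤ T}, q ^ (T.card - γ.card) * t ^ dinvY m γ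

end Pool.Agent.Lib.GC95
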