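import Pool.Agent.Lib.GC95.Cells
import Pool.Agent.Lib.MP_a77f20_co.Defs

namespace Pool.Agent.Lib.GC95

open Finset YoungDiagram Pool.Agent.Lib.MP_a77f20_co

variable {m : ℕ}

def wv (m : ℕ) (γ : YoungDiagram) (i : ℕ) : ℤ := γ.rowLen i + m * i

def cl (m : ℕ) (y : ℤ) : ℤ := max 0 (min y (m + 1))

def good (m : ℕ) (γ : YoungDiagram) (r j : ℕ) : Prop :=
  m * (γ.colLen j - r - 1) ≤ γ.rowLen r - j - 1 ∧
    γ.rowLen r - j - 1 ≤ m * (γ.colLen j - r - 1) + m

instance (m : ℕ) (γ : YoungDiagram) (r : ℕ) : DecidablePred (good m γ r) := fun _ =>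
  inferInstanceAs (Decidable (_ ∧ _))

lemma block (γ : YoungDiagram) (r k : ℕ) :
    (((Ico (γ.rowLen (r + k + 1)) (γ.rowLen (r + k))).filter (good m γ r)).card : ℤ) =
      cl m (wv m γ (r + k) - wv m γ r + m + 1) - cl m (wv m γ (r + k + 1) - wv m γ r + 1) := by
  have h1 := γ.rowLen_anti r (r + k) (by omega)
  have h2 := γ.rowLen_anti (r + k) (r + k + 1) (by omega)
  have : (Ico (γ.rowLen (r + k + 1)) (γ.rowLen (r + k))).filter (good m γ r) =
      Ico (max (γ.rowLen (r + k + 1)) (γ.rowLen r - (m * k + m + 1)))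
        (min (γ.rowLen (r + k)) (γ.rowLen r - m * k)) := by
    ext j
    simp only [mem_filter, mem_Ico, good]
    by_cases hj : γ.rowLen (r + k + 1) ≤ j ∧ j < γ.rowLen (r + k)
    · have a1 : r + k < γ.colLen j := mem_iff_lt_colLen.1 (mem_iff_lt_rowLen.2 hj.2)
      have a2 : ¬ r + k + 1 < γ.colLen j := fun h =>
        absurd (mem_iff_lt_rowLen.1 (mem_iff_lt_colLen.2 h)) (by omega)
      rw [show γ.colLen j - r - 1 = k by omega]
      omega
    · omega
  rw [this, Nat.card_Ico]
  unfold cl wv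
  push_cast
  have e1 : (m : ℤ) * (r + k) = m * r + ((m * k : ℕ) : ℤ) := by push_cast; ring
  have e2 : (m : ℤ) * (r + k + 1) = m * r + ((m * k : ℕ) : ℤ) + m := by push_cast; ring
  rw [e1, e2]
  generalize m * k = z
  omega

lemma row_count (γ : YoungDiagram) (r k : ℕ) :
    (((Ico (γ.rowLen (r + k + 1)) (γ.rowLen r)).filter (good m γ r)).card : ℤ) =
      ∑ s ∈ range k, sc m (wv m γ r - wv m γ (r + s + 1)) + (m + 1) -
        cl m (wv m γ (r + k + 1) - wv m γ r + 1) := by
  induction k with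
  | zero =>
    have := block (m := m) γ r 0
    simp only [add_zero] at this ⊢
    rw [this]
    unfold cl
    simp only [range_zero, sum_empty]
    omega
  | succ k ih =>
    have h1 := γ.rowLen_anti r (r + k + 1) (by omega)
    have h2 := γ.rowLen_anti (r + k + 1) (r + k + 1 + 1) (by omega)
    have h3 := block (m := m) γ r (k + 1)
    rw [← add_assoc] at h3 ⊢
    rw [← Ico_union_Ico_eq_Ico h2 h1, filter_union, card_union_of_disjoint
      (disjoint_filter_filter (Ico_disjoint_Ico_consecutive _ _ _)), sum_range_succ]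
    push_cast
    rw [ih, h3]
    unfold cl sc
    split_ifs <;> omega

def pr {n : ℕ} (g : Fin n → Fin n → ℤ) : ℤ := ∑ a, ∑ b, if a < b then g a b else 0

lemma dinv_eq {γ : YoungDiagram} {n : ℕ} (H : ∀ i, γ.rowLen i ≤ m * (n - i)) :
    (dinvY m γ : ℤ) = pr fun a b : Fin (n + 1) => sc m (wv m γ a - wv m γ b) := by
  have h0 : γ.rowLen (n + 1) = 0 := by simpa using H (n + 1)
  have h1 : dinvY m γ = ∑ r ∈ range (n + 1), ((range (γ.rowLen r)).filter (good m γ r)).card := by
    rw [dinvY, card_eq_sum_card_fiberwise (f := Prod.fst) (t := range (n + 1))]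
    · refine sum_congr rfl fun r _ => ?_
      symm
      refine card_nbij' (fun j => (r, j)) Prod.snd (fun j hj => ?_) (fun c hc => ?_)
        (fun _ _ => rfl) (fun c hc => ?_)
      · simpa [mem_iff_lt_rowLen, good] using hj
      · obtain ⟨i, j⟩ := c
        simp only [coe_filter, mem_filter, Set.mem_ofPred_eq, mem_cells, mem_iff_lt_rowLen,
          mem_range] at hc ⊢
        obtain ⟨hc, rfl⟩ := hc
        exact hc
      · simp only [coe_filter, Set.mem_ofPred_eq] at hc
        exact Prod.ext hc.2.symm rfl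
    · rintro ⟨i, j⟩ hc
      have h1 : j < γ.rowLen i := mem_iff_lt_rowLen.1 (by simpa using (mem_filter.1 hc).1)
      by_contra hi
      have := γ.rowLen_anti (n + 1) i (by simpa using hi)
      omega
  rw [h1, pr]
  push_cast
  rw [sum_range]
  refine sum_congr rfl fun r _ => ?_
  obtain ⟨r, hr⟩ := r
  obtain ⟨k, rfl⟩ : ∃ k, n = r + k := ⟨n - r, by omega⟩
  have h2 := row_count (m := m) γ r k
  rw [h0, ← range_eq_Ico] at h2
  have h3 := H r
  rw [Nat.add_sub_cancel_left] at h3
  have h4 : cl m (wv m γ (r + k + 1) - wv m γ r + 1) = m + 1 := by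
    unfold cl wv
    rw [h0]
    have e2 : (m : ℤ) * ((r + k + 1 : ℕ) : ℤ) = m * r + ((m * k : ℕ) : ℤ) + m := by
      push_cast; ring
    rw [e2]
    omega
  simp only [Fin.lt_def]
  rw [h2, h4, ← sum_range (fun b => if r < b then sc m (wv m γ r - wv m γ b) else 0),
    show r + k + 1 = (r + 1) + k by ring, sum_range_add, sum_eq_zero (s := range (r + 1))
      (fun b hb => if_neg (by rw [mem_range] at hb; omega)), zero_add, add_sub_cancel_right]
  refine sum_congr rfl fun s _ => ?_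
  rw [if_pos (by omega), show r + 1 + s = r + s + 1 by ring]

lemma peel {n : ℕ} (g : Fin (n + 1) → Fin (n + 1) → ℤ) (s : Fin (n + 1)) :
    pr g = ∑ a, (if s.succAbove a < s then g (s.succAbove a) s else g s (s.succAbove a)) +
      pr fun a b => g (s.succAbove a) (s.succAbove b) := by
  unfold pr
  rw [Fin.sum_univ_succAbove _ s, Fin.sum_univ_succAbove _ s]
  simp only [Fin.sum_univ_succAbove _ s, lt_irrefl, if_false, zero_add, sum_add_distrib,
    Fin.succAbove_lt_succAbove_iff]
  rw [← add_assoc, ← sum_add_distrib]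
  congr 1
  refine sum_congr rfl fun a _ => ?_
  rcases lt_trichotomy (s.succAbove a) s with h | h | h
  · simp [h, not_lt.2 h.le]
  · exact absurd h (Fin.succAbove_ne s a)
  · simp [h, not_lt.2 h.le]

lemma big (hm : 1 ≤ m) {γ : YoungDiagram} {n : ℕ} (h : γ.rowLen 0 + γ.colLen 0 ≤ n) (i : ℕ) :
    γ.rowLen i ≤ m * (n - i) := by
  have h1 := row_pos (γ := γ) (i := i)
  have h2 := γ.rowLen_anti 0 i (Nat.zero_le _)
  have h3 : n - i ≤ m * (n - i) := Nat.le_mul_of_pos_left _ hm
  omega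

lemma succAbove_val {n : ℕ} (s : Fin (n + 1)) (a : Fin n) :
    ((s.succAbove a : Fin (n + 1)) : ℕ) = if (a : ℕ) < s then (a : ℕ) else a + 1 := by
  unfold Fin.succAbove
  simp only [Fin.lt_def, Fin.val_castSucc]
  split_ifs <;> rfl

lemma Nu.dinv_succ (hm : 1 ≤ m) {γ γ' : YoungDiagram} (h : Nu m γ γ') :
    dinvY m γ' = dinvY m γ + 1 := by
  obtain ⟨h1, h2, h3⟩ := h
  obtain ⟨s, a1, a2, a3, a4⟩ := short_row hm h1
  set n := γ.rowLen 0 + γ.colLen 0 + γ'.rowLen 0 + γ'.colLen 0 + s + 1 with hn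
  have hs : s < n := by omega
  have w0 : wv m γ' 0 = wv m γ s + 1 := by
    unfold wv; rw [h2, a4]; push_cast; ring
  have w1 : ∀ i, i < s → wv m γ' (i + 1) = wv m γ i := by
    intro i hi
    unfold wv; rw [h3, Nat.cast_sub (a1 i hi)]; push_cast; ring
  have w2 : ∀ i, s ≤ i → wv m γ' (i + 1) = wv m γ (i + 1) ∧ wv m γ (i + 1) = m * (i + 1) := by
    intro i hi
    have := γ.rowLen_anti s i hi
    unfold wv; rw [h3, a3 (i + 1) (by omega), show γ.rowLen i - m = 0 by omega]; simp
  have w3 : ∀ a : Fin n, wv m γ' ((0 : Fin (n + 1)).succAbove a : Fin (n + 1)) =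
      wv m γ ((⟨s, by omega⟩ : Fin (n + 1)).succAbove a : Fin (n + 1)) := by
    intro a
    rw [succAbove_val, succAbove_val]
    simp only [Fin.val_zero, Nat.not_lt_zero, if_false]
    split_ifs with ha
    · exact w1 a ha
    · exact (w2 a (not_lt.1 ha)).1
  zify
  rw [dinv_eq (big hm (n := n) (by omega)), dinv_eq (big hm (n := n) (by omega)), peel _ 0,
    peel _ (⟨s, by omega⟩ : Fin (n + 1))]
  simp only [w3]
  have e1 : ∀ z : ℤ, z + 1 = z + ∑ a : Fin n, if a = ⟨s, hs⟩ then 1 else 0 := by simp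
  rw [add_right_comm _ _ (1 : ℤ), e1, ← sum_add_distrib]
  congr 1
  refine sum_congr rfl fun a _ => ?_
  simp only [Fin.lt_def, succAbove_val, Fin.val_zero, Nat.not_lt_zero, if_false, w0, Fin.ext_iff]
  rcases lt_trichotomy (a : ℕ) s with ha | ha | ha
  · simp only [ha, if_true, ha.ne, if_false]
    unfold sc; split_ifs <;> omega
  · have := (w2 a ha.ge).2
    simp only [ha, lt_irrefl, if_false, if_true, show ¬ s + 1 < s by omega] at this ⊢
    rw [this]
    have e : wv m γ s = γ.rowLen s + m * s := rfl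
    rw [e, mul_add]
    unfold sc; split_ifs <;> omega
  · have := (w2 a ha.le).2
    simp only [not_lt.2 ha.le, if_false, ha.ne', show ¬ (a : ℕ) + 1 < s by omega]
    rw [this]
    have e : wv m γ s = γ.rowLen s + m * s := rfl
    have e' : (m : ℤ) * (s + 1) ≤ m * a :=
      mul_le_mul_of_nonneg_left (by exact_mod_cast ha) (Int.natCast_nonneg m)
    rw [e, mul_add]
    rw [mul_add] at e'
    unfold sc; split_ifs <;> omega

lemma dinv_le_card (γ : YoungDiagram) : dinvY m γ ≤ γ.card := card_filter_le _ _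

/-- The distance of row `i` from the staircase. -/
def uv (m n : ℕ) (γ : YoungDiagram) (i : ℕ) : ℤ := m * ((n : ℤ) - i) - γ.rowLen i

lemma card_uv {γ : YoungDiagram} {n : ℕ} (H : ∀ i, γ.rowLen i ≤ m * (n - i)) :
    (γ.card : ℤ) = ∑ a : Fin (n + 1), (m : ℤ) * ((n : ℤ) - a) - ∑ a : Fin (n + 1), uv m n γ a := by
  rw [card_rows (n := n + 1) (by simpa using H (n + 1)), ← sum_sub_distrib, sum_range]
  push_cast
  exact sum_congr rfl fun a _ => by unfold uv; ring

lemma deficit {γ : YoungDiagram} {n : ℕ} (H : ∀ i, γ.rowLen i ≤ m * (n - i)) :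
    (γ.card : ℤ) - dinvY m γ =
      (pr fun a b : Fin (n + 1) => m - sc m (uv m n γ b - uv m n γ a)) -
        ∑ a : Fin (n + 1), uv m n γ a := by
  rw [card_uv H, dinv_eq H, pr, pr, sub_right_comm, ← sum_sub_distrib]
  congr 1
  refine sum_congr rfl fun a _ => ?_
  have e1 : (m : ℤ) * ((n : ℤ) - a) = ∑ b : Fin (n + 1), if a < b then (m : ℤ) else 0 := by
    rw [← sum_filter, sum_const, filter_lt_eq_Ioi, Fin.card_Ioi]
    have := a.2
    rw [nsmul_eq_mul, mul_comm]
    congr 1
    omega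
  rw [e1, ← sum_sub_distrib]
  refine sum_congr rfl fun b _ => ?_
  have e2 : wv m γ a - wv m γ b = uv m n γ b - uv m n γ a := by unfold wv uv; ring
  rw [e2]
  split_ifs <;> simp

end Pool.Agent.Lib.GC95
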