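import Mathlib

namespace Pool.Agent.Lib.GC95

open Equiv Set

/-- A matching compatible with an involution of the labels extends to an involution. -/
lemma exists_invol {Y P : Type*} (e : Y → P) (tr : P → P) (htr : ∀ p, tr (tr p) = p)
    (hfin : ∀ p, {y | e y = p}.Finite)
    (hcard : ∀ p, {y | e y = p}.ncard = {y | e y = tr p}.ncard)
    (M : Y → Y → Prop) (hs : ∀ y y', M y y' → M y' y)
    (hf : ∀ y y' y'', M y y' → M y y'' → y' = y'') (he : ∀ y y', M y y' → e y' = tr (e y)) :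
    ∃ θ : Y → Y, (∀ y, θ (θ y) = y) ∧ (∀ y, e (θ y) = tr (e y)) ∧ ∀ y y', M y y' → θ y = y' := by
  classical
  set S : P → Set Y := fun p => {y | e y = p ∧ ¬ ∃ y', M y y'} with hS
  set D : P → Set Y := fun p => {y | e y = p ∧ ∃ y', M y y'} with hD
  have hSf : ∀ p, (S p).Finite := fun p => (hfin p).subset fun y hy => hy.1
  have hDf : ∀ p, (D p).Finite := fun p => (hfin p).subset fun y hy => hy.1
  have hDle : ∀ p, (D p).ncard ≤ (D (tr p)).ncard := by
    intro p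
    refine ncard_le_ncard_of_injOn (fun y => if h : ∃ y', M y y' then h.choose else y) ?_ ?_
      (hDf _)
    · intro y hy
      simp only [dif_pos hy.2]
      exact ⟨by rw [he _ _ hy.2.choose_spec, hy.1], y, hs _ _ hy.2.choose_spec⟩
    · intro y hy y' hy' h
      simp only [dif_pos hy.2, dif_pos hy'.2] at h
      exact hf _ _ _ (hs _ _ hy.2.choose_spec) (h ▸ hs _ _ hy'.2.choose_spec)
  have hsplit : ∀ p, {y | e y = p}.ncard = (S p).ncard + (D p).ncard := by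
    intro p
    rw [← ncard_union_eq (disjoint_left.2 fun y h1 h2 => h1.2 h2.2) (hSf p) (hDf p)]
    congr 1
    ext y
    simp only [hS, hD, mem_ofPred_eq, mem_union]
    tauto
  have hSc : ∀ p, (S p).ncard = (S (tr p)).ncard := by
    intro p
    have h1 := hDle p
    have h2 := hDle (tr p)
    rw [htr] at h2
    have h3 := hsplit p
    have h4 := hsplit (tr p)
    have h5 := hcard p
    omega
  have hidx : ∀ p, ∃ f : Y → ℕ, BijOn f (S p) (Iio (S p).ncard) := fun p =>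
    (hSf p).exists_bijOn_of_encard_eq (by
      rw [← (hSf p).cast_ncard_eq, ← (finite_Iio _).cast_ncard_eq, ncard_Iio_nat])
  choose f hfb using hidx
  have hex : ∀ y, (¬ ∃ y', M y y') → ∃ z ∈ S (tr (e y)), f (tr (e y)) z = f (e y) y := by
    intro y hy
    refine (hfb (tr (e y))).surjOn ?_
    rw [← hSc]
    exact (hfb (e y)).mapsTo ⟨rfl, hy⟩
  choose g hg1 hg2 using hex
  refine ⟨fun y => if h : ∃ y', M y y' then h.choose else g y h, ?_, ?_, ?_⟩
  · intro y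
    by_cases h : ∃ y', M y y'
    · have h' : ∃ y', M h.choose y' := ⟨y, hs _ _ h.choose_spec⟩
      simp only [dif_pos h, dif_pos h']
      exact hf _ _ _ h'.choose_spec (hs _ _ h.choose_spec)
    · have h1 := hg1 y h
      have h2 := hg2 y h
      simp only [dif_neg h, dif_neg h1.2]
      have h3 := hg1 _ h1.2
      have h4 := hg2 _ h1.2
      have h5 : e (g y h) = tr (e y) := h1.1
      generalize g (g y h) h1.2 = z at h3 h4 ⊢
      rw [h5, htr] at h3 h4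
      exact (hfb (e y)).injOn h3 ⟨rfl, h⟩ (h4.trans h2)
  · intro y
    by_cases h : ∃ y', M y y'
    · simp only [dif_pos h]; exact he _ _ h.choose_spec
    · simp only [dif_neg h]; exact (hg1 y h).1
  · intro y y' hM
    have h : ∃ y', M y y' := ⟨y', hM⟩
    simp only [dif_pos h]
    exact hf _ _ _ h.choose_spec hM

section path

variable {X : Type*} (κ d h : X → ℕ)

/-- End point of a step. -/
def en (y : X × Bool) : ℕ × ℕ × ℕ :=
  if y.2 then (κ y.1, d y.1 + 1, h y.1) else (κ y.1, h y.1, d y.1)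

def sA (y : X × Bool) : ℕ := if y.2 then d y.1 else h y.1
def sB (y : X × Bool) : ℕ := if y.2 then h y.1 else d y.1 + 1

def flp (y : X × Bool) : X × Bool := (y.1, !y.2)

@[simp] lemma flp_flp (y : X × Bool) : flp (flp y) = y := by simp [flp]

lemma fiber_card (hfin : ∀ k a b, {x | κ x = k ∧ d x = a ∧ h x = b}.Finite) (k a b : ℕ) :
    {y | en κ d h y = (k, a, b)}.Finite ∧ {y | en κ d h y = (k, a, b)}.ncard =
      {x | κ x = k ∧ d x + 1 = a ∧ h x = b}.ncard + {x | κ x = k ∧ d x = b ∧ h x = a}.ncard := by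
  have e1 : {y | en κ d h y = (k, a, b)} =
      (fun x => (x, true)) '' {x | κ x = k ∧ d x + 1 = a ∧ h x = b} ∪
        (fun x => (x, false)) '' {x | κ x = k ∧ d x = b ∧ h x = a} := by
    ext ⟨x, s⟩
    cases s
    · simp [en]; tauto
    · simp [en]
  have f1 : {x | κ x = k ∧ d x + 1 = a ∧ h x = b}.Finite :=
    (hfin k (a - 1) b).subset fun x hx => ⟨hx.1, by have := hx.2.1; omega, hx.2.2⟩
  rw [e1]
  refine ⟨(f1.image _).union ((hfin k b a).image _), ?_⟩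
  rw [ncard_union_eq _ (f1.image _) ((hfin k b a).image _),
    ncard_image_of_injective _ (fun _ _ h => (Prod.ext_iff.1 h).1),
    ncard_image_of_injective _ (fun _ _ h => (Prod.ext_iff.1 h).1)]
  rw [disjoint_left]
  rintro _ ⟨x, -, rfl⟩ ⟨x', -, h⟩
  simp at h

lemma balance (hfin : ∀ k a b, {x | κ x = k ∧ d x = a ∧ h x = b}.Finite)
    (hG : ∀ k a b, {x | κ x = k ∧ d x = a ∧ h x ≤ b}.ncard =
      {x | κ x = k ∧ d x = b ∧ h x ≤ a}.ncard) (k a b : ℕ) :
    {y | en κ d h y = (k, a, b)}.ncard = {y | en κ d h y = (k, b, a)}.ncard := by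
  set G : ℕ → ℕ → ℕ := fun a b => {x | κ x = k ∧ d x = a ∧ h x ≤ b}.ncard with hGd
  set E : ℕ → ℕ → ℕ := fun a b => {x | κ x = k ∧ d x = a ∧ h x = b}.ncard with hEd
  have hGf : ∀ a b, {x | κ x = k ∧ d x = a ∧ h x ≤ b}.Finite := fun a b =>
    ((finite_Iic b).biUnion fun b' _ => hfin k a b').subset fun x hx => by
      simp only [mem_iUnion]
      exact ⟨h x, hx.2.2, hx.1, hx.2.1, rfl⟩
  have e0 : ∀ a, E a 0 = G a 0 := fun a => by simp [hEd, hGd]
  have e1 : ∀ a b, G a (b + 1) = G a b + E a (b + 1) := by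
    intro a b
    simp only [hEd, hGd]
    rw [← ncard_union_eq (disjoint_left.2 fun x h1 h2 => by
      have := h1.2.2; have := h2.2.2; omega) (hGf a b) (hfin k a (b + 1))]
    congr 1
    ext x
    simp only [mem_ofPred_eq, mem_union]
    omega
  have z : ∀ b, {x | κ x = k ∧ d x + 1 = 0 ∧ h x = b}.ncard = 0 := fun b => by simp
  have s : ∀ a b, {x | κ x = k ∧ d x + 1 = a + 1 ∧ h x = b}.ncard = E a b := fun a b => by
    simp [hEd]
  have hG' : ∀ a b, G a b = G b a := hG k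
  rw [(fiber_card κ d h hfin k a b).2, (fiber_card κ d h hfin k b a).2]
  change _ + E b a = _ + E a b
  rcases a with _ | a <;> rcases b with _ | b
  · rfl
  · rw [z, s]
    have := e0 (b + 1); have := e0 b; have := e1 0 b; have := hG' 0 b; have := hG' 0 (b + 1)
    omega
  · rw [z, s]
    have := e0 (a + 1); have := e0 a; have := e1 0 a; have := hG' 0 a; have := hG' 0 (a + 1)
    omega
  · rw [s, s]
    have := e1 a b; have := e1 b a; have := e1 (a + 1) b; have := e1 (b + 1) a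
    have := hG' a b; have := hG' (a + 1) b; have := hG' a (b + 1); have := hG' (a + 1) (b + 1)
    omega

/-- The successor permutation of the steps. -/
lemma exists_succ (hfin : ∀ k a b, {x | κ x = k ∧ d x = a ∧ h x = b}.Finite)
    (hG : ∀ k a b, {x | κ x = k ∧ d x = a ∧ h x ≤ b}.ncard =
      {x | κ x = k ∧ d x = b ∧ h x ≤ a}.ncard) (ν : X → X → Prop)
    (h1 : ∀ x y y', ν x y → ν x y' → y = y') (h2 : ∀ x x' y, ν x y → ν x' y → x = x')
    (h3 : ∀ x y, ν x y → κ y = κ x ∧ d y = d x + 1 ∧ h y = h x) :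
    ∃ σ : Perm (X × Bool), (∀ y, flp (σ (flp (σ y))) = y) ∧
      (∀ y, (κ (σ y).1, sA d h (σ y), sB d h (σ y)) = en κ d h y) ∧
      ∀ x y, ν x y → σ (x, true) = (y, true) := by
  obtain ⟨θ, t1, t2, t3⟩ := exists_invol (en κ d h) (fun p => (p.1, p.2.2, p.2.1)) (fun _ => rfl)
    (fun p => (fiber_card κ d h hfin p.1 p.2.1 p.2.2).1)
    (fun p => balance κ d h hfin hG p.1 p.2.1 p.2.2)
    (fun y y' => (y.2 = true ∧ y'.2 = false ∧ ν y.1 y'.1) ∨ (y.2 = false ∧ y'.2 = true ∧ ν y'.1 y.1))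
    (by tauto)
    (by
      rintro ⟨x, s⟩ ⟨x', s'⟩ ⟨x'', s''⟩ (⟨a1, a2, a3⟩ | ⟨a1, a2, a3⟩) (⟨b1, b2, b3⟩ | ⟨b1, b2, b3⟩)
      · exact Prod.ext (h1 _ _ _ a3 b3) (a2.trans b2.symm)
      · simp_all
      · simp_all
      · exact Prod.ext (h2 _ _ _ a3 b3) (a2.trans b2.symm))
    (by
      rintro ⟨x, s⟩ ⟨x', s'⟩ (⟨a1, a2, a3⟩ | ⟨a1, a2, a3⟩)
      · obtain ⟨c1, c2, c3⟩ := h3 _ _ a3
        simp only at a1 a2 c1 c2 c3
        simp [en, a1, a2, c1, c2, c3]
      · obtain ⟨c1, c2, c3⟩ := h3 _ _ a3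
        simp only at a1 a2 c1 c2 c3
        simp [en, a1, a2, c1, c2, c3])
  refine ⟨⟨fun y => flp (θ y), fun y => θ (flp y), fun y => by simp [t1], fun y => by simp [t1]⟩,
    fun y => by simp [t1], fun y => ?_, fun x y hxy => ?_⟩
  · have := t2 y
    simp only [coe_fn_mk]
    generalize θ y = z at this
    obtain ⟨z, s⟩ := z
    generalize en κ d h y = p at this
    obtain ⟨p1, p2, p3⟩ := p
    cases s <;> simp [en, flp, sA, sB] at this ⊢ <;> tauto
  · simp only [coe_fn_mk]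
    rw [t3 (x, true) (y, false) (Or.inl ⟨rfl, rfl, hxy⟩)]
    rfl

variable {κ d h} {σ : Perm (X × Bool)}
  (hσ : ∀ y, (κ (σ y).1, sA d h (σ y), sB d h (σ y)) = en κ d h y)

include hσ

lemma step (y : X × Bool) : κ (σ y).1 = κ y.1 ∧
    ((y.2 = true ∧ sA d h (σ y) = sA d h y + 1 ∧ sB d h (σ y) = sB d h y) ∨
      (y.2 = false ∧ sA d h (σ y) = sA d h y ∧ sB d h (σ y) + 1 = sB d h y)) := by
  have := hσ y
  obtain ⟨x, s⟩ := y
  cases s
  · simp only [en, Bool.false_eq_true, if_false, Prod.mk.injEq] at this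
    exact ⟨this.1, Or.inr ⟨rfl, this.2.1, by rw [this.2.2]; rfl⟩⟩
  · simp only [en, if_true, Prod.mk.injEq] at this
    exact ⟨this.1, Or.inl ⟨rfl, this.2.1, this.2.2⟩⟩

lemma mono (n : ℕ) (y : X × Bool) : κ ((σ ^ n) y).1 = κ y.1 ∧ sA d h y ≤ sA d h ((σ ^ n) y) ∧
    sB d h ((σ ^ n) y) ≤ sB d h y := by
  induction n with
  | zero => simp
  | succ n ih =>
    rw [pow_succ', Perm.mul_apply]
    have := step hσ ((σ ^ n) y)
    omega

omit hσ in
lemma cyc_cases {y z : X × Bool} (hc : σ.SameCycle y z) :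
    (∃ n : ℕ, (σ ^ n) y = z) ∨ ∃ n : ℕ, (σ ^ n) z = y := by
  obtain ⟨t, rfl⟩ := hc
  obtain ⟨n, rfl | rfl⟩ := t.eq_nat_or_neg
  · exact Or.inl ⟨n, by simp⟩
  · exact Or.inr ⟨n, by simp⟩

lemma cyc_κ {y z : X × Bool} (hc : σ.SameCycle y z) : κ z.1 = κ y.1 := by
  rcases cyc_cases hc with ⟨n, rfl⟩ | ⟨n, rfl⟩
  · exact (mono hσ n y).1
  · exact (mono hσ n z).1.symm

lemma cyc_B {y z : X × Bool} (hc : σ.SameCycle y z) (hlt : sA d h y < sA d h z) :
    sB d h z ≤ sB d h y := by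
  rcases cyc_cases hc with ⟨n, rfl⟩ | ⟨n, rfl⟩
  · exact (mono hσ n y).2.2
  · have := (mono hσ n z).2.1; omega

lemma cyc_inj {x x' : X} (hc : σ.SameCycle (x, true) (x', true)) (hd : d x = d x') : x = x' := by
  have key : ∀ (x x' : X) (n : ℕ), (σ ^ n) (x, true) = (x', true) → d x = d x' → x = x' := by
    intro x x' n hn hd
    rcases n with _ | n
    · simpa using hn
    · rw [pow_succ, Perm.mul_apply] at hn
      have a1 := (mono hσ n (σ (x, true))).2.1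
      have a2 := (step hσ (x, true)).2
      rw [hn] at a1
      simp only [sA, if_true, Bool.true_eq_false, false_and, or_false, true_and] at a1 a2
      omega
  rcases cyc_cases hc with ⟨n, hn⟩ | ⟨n, hn⟩
  · exact key _ _ n hn hd
  · exact (key _ _ n hn hd.symm).symm

lemma reach (i j : ℕ) (y : X × Bool) (hA : sA d h y ≤ i) (hB : sB d h y ≤ j) :
    ∃ x, σ.SameCycle y (x, true) ∧ d x = i ∧ h x ≤ j := by
  induction hN : i - sA d h y + sB d h y using Nat.strong_induction_on generalizing y with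
  | _ N ih =>
    by_cases hy : y.2 = true ∧ sA d h y = i
    · obtain ⟨x, s⟩ := y
      obtain ⟨rfl, h2⟩ := hy
      exact ⟨x, Perm.SameCycle.refl _ _, h2, hB⟩
    · have := (step hσ y).2
      obtain ⟨x, h1, h2⟩ := ih (i - sA d h (σ y) + sB d h (σ y)) (by
        rcases this with ⟨a, _⟩ | _
        · have : sA d h y ≠ i := fun h => hy ⟨a, h⟩
          omega
        · omega) (σ y) (by
        rcases this with ⟨a, _⟩ | _
        · have : sA d h y ≠ i := fun h => hy ⟨a, h⟩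
          omega
        · omega) (by omega) rfl
      exact ⟨x, Perm.sameCycle_apply_left.1 h1, h2⟩

omit hσ in
lemma cyc_flp (hr : ∀ y, flp (σ (flp (σ y))) = y) {y z : X × Bool} (hc : σ.SameCycle y z) :
    σ.SameCycle (flp y) (flp z) := by
  have key : ∀ (n : ℕ) (y : X × Bool), σ.SameCycle (flp y) (flp ((σ ^ n) y)) := by
    intro n y
    induction n with
    | zero => exact Perm.SameCycle.refl _ _
    | succ n ih =>
      rw [pow_succ', Perm.mul_apply, ← Perm.sameCycle_apply_right]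
      have := congrArg flp (hr ((σ ^ n) y))
      rw [flp_flp] at this
      rwa [this]
  rcases cyc_cases hc with ⟨n, rfl⟩ | ⟨n, rfl⟩
  · exact key n y
  · exact (key n z).symm

lemma opp (hr : ∀ y, flp (σ (flp (σ y))) = y) {y : X × Bool} {i j : ℕ}
    (hx : ∃ x, σ.SameCycle y (x, true) ∧ d x = i ∧ h x ≤ j) :
    ∃ x, σ.SameCycle (flp y) (x, true) ∧ d x = j ∧ h x ≤ i := by
  obtain ⟨x, h1, h2, h3⟩ := hx
  obtain ⟨z, hz⟩ := σ.surjective (x, true)
  have h4 := hσ z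
  rw [hz] at h4
  have h5 : σ.SameCycle (flp y) (flp z) :=
    cyc_flp hr (Perm.sameCycle_apply_right.1 (by rwa [hz]))
  have h6 : sA d h (flp z) ≤ j ∧ sB d h (flp z) ≤ i := by
    obtain ⟨z, s⟩ := z
    cases s <;> simp [en, sA, sB, flp] at h4 ⊢ <;> omega
  obtain ⟨x', a1, a2⟩ := reach hσ j i (flp z) h6.1 h6.2
  exact ⟨x', h5.trans a1, a2⟩

lemma eventually_flat (y : X × Bool) : ∃ a b, ∀ a', a ≤ a' →
    ∃ x, σ.SameCycle y (x, true) ∧ d x = a' ∧ h x = b := by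
  classical
  have hex : ∃ b, ∃ z, σ.SameCycle y z ∧ sB d h z = b := ⟨_, y, Perm.SameCycle.refl _ _, rfl⟩
  obtain ⟨z, h1, h2⟩ := Nat.find_spec hex
  refine ⟨sA d h z, Nat.find hex, fun a' ha => ?_⟩
  obtain ⟨x, a1, a2, a3⟩ := reach hσ a' _ z ha h2.le
  exact ⟨x, h1.trans a1, a2, le_antisymm a3 (Nat.find_min' hex ⟨_, h1.trans a1, rfl⟩)⟩

end path

/-- The abstract global chain decomposition. -/
theorem ladder {X I : Type*} (κ d h : X → ℕ)
    (hfin : ∀ k a b, {x | κ x = k ∧ d x = a ∧ h x = b}.Finite)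
    (hG : ∀ k a b, {x | κ x = k ∧ d x = a ∧ h x ≤ b}.ncard =
      {x | κ x = k ∧ d x = b ∧ h x ≤ a}.ncard) (ν : X → X → Prop)
    (h1 : ∀ x y y', ν x y → ν x y' → y = y') (h2 : ∀ x x' y, ν x y → ν x' y → x = x')
    (h3 : ∀ x y, ν x y → κ y = κ x ∧ d y = d x + 1 ∧ h y = h x)
    (T : I → ℕ → X) (t1 : ∀ μ s, ν (T μ s) (T μ (s + 1)))
    (t2 : ∀ μ μ' s s', T μ s = T μ' s' → μ = μ')
    (t3 : ∀ k b D, ∃ a, D ≤ a ∧ ∀ x, κ x = k → d x = a → h x = b → ∃ μ s, x = T μ s) :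
    ∃ (C : I → Set X) (star : I → I), (∀ μ, star (star μ) = μ) ∧
      (∀ μ, κ (T (star μ) 0) = κ (T μ 0)) ∧ (∀ x, ∃! μ, x ∈ C μ) ∧
      (∀ μ, ∀ x ∈ C μ, κ x = κ (T μ 0)) ∧ (∀ μ, InjOn d (C μ)) ∧
      (∀ μ i, (∃ x ∈ C μ, d x = i) ↔ h (T (star μ) 0) ≤ i) ∧
      (∀ μ x y, ν x y → (x ∈ C μ ↔ y ∈ C μ)) ∧ (∀ μ, T μ 0 ∈ C μ) ∧
      ∀ μ i j, (∃ x ∈ C μ, d x = i ∧ h x ≤ j) ↔ ∃ x ∈ C (star μ), d x = j ∧ h x ≤ i := by
  obtain ⟨σ, hr, hσ, hν⟩ := exists_succ κ d h hfin hG ν h1 h2 h3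
  have cν : ∀ x y, ν x y → σ.SameCycle (x, true) (y, true) := fun x y hxy =>
    ⟨1, by simpa using hν x y hxy⟩
  have cT : ∀ μ s, σ.SameCycle (T μ 0, true) (T μ s, true) ∧ d (T μ s) = d (T μ 0) + s ∧
      h (T μ s) = h (T μ 0) := by
    intro μ s
    induction s with
    | zero => exact ⟨Perm.SameCycle.refl _ _, rfl, rfl⟩
    | succ s ih =>
      have := h3 _ _ (t1 μ s)
      exact ⟨ih.1.trans (cν _ _ (t1 μ s)), by omega, by omega⟩
  have ex : ∀ y, ∃ μ, σ.SameCycle (T μ 0, true) y := by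
    intro y
    obtain ⟨a, b, hab⟩ := eventually_flat hσ y
    obtain ⟨a', b1, b2⟩ := t3 (κ y.1) b a
    obtain ⟨x, c1, c2, c3⟩ := hab a' b1
    obtain ⟨μ, s, rfl⟩ := b2 x (cyc_κ hσ c1) c2 c3
    exact ⟨μ, (cT μ s).1.trans c1.symm⟩
  have un : ∀ μ μ' y, σ.SameCycle (T μ 0, true) y → σ.SameCycle (T μ' 0, true) y → μ = μ' := by
    intro μ μ' y a1 a2
    refine t2 μ μ' (d (T μ' 0)) (d (T μ 0)) (cyc_inj hσ
      ((cT μ _).1.symm.trans (a1.trans (a2.symm.trans (cT μ' _).1))) ?_)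
    have := (cT μ (d (T μ' 0))).2.1
    have := (cT μ' (d (T μ 0))).2.1
    omega
  choose star hstar using fun μ => ex (T μ 0, false)
  have hss : ∀ μ, star (star μ) = μ := fun μ =>
    un _ _ _ (hstar (star μ)) (cyc_flp hr (hstar μ)).symm
  have hop : ∀ μ i j, (∃ x, σ.SameCycle (T μ 0, true) (x, true) ∧ d x = i ∧ h x ≤ j) →
      ∃ x, σ.SameCycle (T (star μ) 0, true) (x, true) ∧ d x = j ∧ h x ≤ i := by
    intro μ i j hx
    obtain ⟨x, a1, a2⟩ := opp hσ hr hx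
    exact ⟨x, (hstar μ).trans a1, a2⟩
  have hop' : ∀ μ i j, (∃ x, σ.SameCycle (T μ 0, true) (x, true) ∧ d x = i ∧ h x ≤ j) ↔
      ∃ x, σ.SameCycle (T (star μ) 0, true) (x, true) ∧ d x = j ∧ h x ≤ i := by
    intro μ i j
    refine ⟨hop μ i j, fun hx => ?_⟩
    have := hop _ _ _ hx
    rwa [hss] at this
  refine ⟨fun μ => {x | σ.SameCycle (T μ 0, true) (x, true)}, star, hss,
    fun μ => (cyc_κ hσ (hstar μ)).symm, fun x => ?_, fun μ x hx => cyc_κ hσ hx,
    fun μ x hx x' hx' hd => cyc_inj hσ (hx.symm.trans hx') hd, fun μ i => ⟨?_, fun hi => ?_⟩,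
    fun μ x y hxy => ⟨fun hx => hx.trans (cν _ _ hxy), fun hy => hy.trans (cν _ _ hxy).symm⟩,
    fun μ => Perm.SameCycle.refl _ _, hop'⟩
  · obtain ⟨μ, hμ⟩ := ex (x, true)
    exact ⟨μ, hμ, fun μ' hμ' => un _ _ _ hμ' hμ⟩
  · rintro ⟨x, a1, a2⟩
    obtain ⟨x', b1, b2, b3⟩ := hop μ i (h x) ⟨x, a1, a2, le_rfl⟩
    have c1 := cT (star μ) (d x' + 1)
    have c2 := cyc_B hσ (b1.symm.trans c1.1) (by simp only [sA, if_true]; omega)
    simp only [sB, if_true] at c2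
    omega
  · obtain ⟨x, a1, a2, -⟩ := (hop' μ i (d (T (star μ) 0))).2
      ⟨_, Perm.SameCycle.refl _ _, rfl, hi⟩
    exact ⟨x, a1, a2⟩

end Pool.Agent.Lib.GC95
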