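import Pool.Agent.Lib.MP_a77f20_co.Final

namespace Pool.Agent.Lib.GC95

open Pool.Agent.Lib.MP_a77f20_co AddMonoidAlgebra Finset

variable {R : Type*} [CommRing R] {n : ℕ}

lemma vanish0 {v : R} (hv : IsNilpotent v) {a : V n} (ha : ∀ k, 0 ≤ a k) {l : Fin n}
    (hl : a l = 0) {f : L R n} (hf : f ∈ supp R {ν : V n | (∀ k, ν k ≤ 0) ∧ ν l < 0}) :
    ph v 0 (Ep v a * f) = 0 := by
  induction a using asc_ind generalizing l f with
  | h0 a hd =>
    rw [Ep_dom v hd, raise hv IsNilpotent.zero (j := l), zero_mul, zero_mul]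
    refine mul_mem_supp (s := {a}) ?_ (mon_mem rfl) hf
    rintro _ rfl ν hν
    refine ⟨fun k hk => ?_, ?_⟩
    · have := hd.anti l k hk
      have := hν.1 k
      simp only [Pi.add_apply]; omega
    · have := hν.2
      simp only [Pi.add_apply]; omega
  | h1 a i j hij hlt ih =>
    rw [Ep_asc v hij hlt, ph_A hv IsNilpotent.zero hij]
    have ha' : ∀ k, 0 ≤ sw i j a k := fun k => ha _
    by_cases hi : l = i
    · subst hi
      refine ih ha' (l := j) (by simpa using hl) ?_
      rw [A_apply]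
      refine add_mem (S_mem (fun ν hν => And.intro (fun k => hν.1 _) (by simpa using hν.2)) hf) ?_
      rw [← map_one C, ← map_sub]
      refine C_mul_mem _ (D_mem' hij.ne (fun ν hν ρ a1 a2 a3 a4 => ?_) hf)
      have := hν.1 l
      have := hν.1 j
      exact ⟨seg_le 0 l j ν hν.1 ρ a1 a2 a3.le a4, by omega⟩
    · have hj : l ≠ j := by
        rintro rfl
        have := ha i
        omega
      refine ih ha' (l := l) (by rwa [sw_other hi hj]) (A_mem v hij.ne ?_ hf)
      exact (seg_le 0 i j).inter (seg_coord (fun x => x < 0) hi hj)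

lemma vanish {v : R} (hv : IsNilpotent v) {a : V n} {l : Fin n} (ha : ∀ k, a l ≤ a k)
    {f : L R n} (hf : f ∈ supp R {ν : V n | (∀ k, ν k ≤ -a l) ∧ ν l < -a l}) :
    ph v 0 (Ep v a * f) = 0 := by
  have e1 : a = (a + cst (-a l)) + cst (a l) := by funext k; simp [cst]
  rw [e1, Ep_shift, mul_comm (mon _), mul_assoc]
  refine vanish0 hv (l := l) (fun k => by have := ha k; simp [cst]; omega) (by simp [cst]) ?_
  refine mul_mem_supp (s := {cst (a l)}) ?_ (mon_mem rfl) hf
  rintro _ rfl ν hν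
  refine ⟨fun k => ?_, ?_⟩
  · have := hν.1 k
    simp only [Pi.add_apply, cst]; omega
  · have := hν.2
    simp only [Pi.add_apply, cst]; omega

/-- The almost constant lower bound. -/
def eta (c : ℕ) (j : ℕ) : V n := fun l => (c : ℤ) + if (l : ℕ) < j then 1 else 0

lemma eta_nonneg (c j : ℕ) (l : Fin n) : 0 ≤ (eta c j : V n) l := by
  unfold eta; split_ifs <;> omega

lemma supp_inter {s t : Set (V n)} {f : L R n} (h1 : f ∈ supp R s) (h2 : f ∈ supp R t) :
    f ∈ supp R (s ∩ t) := by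
  rw [supp, mem_supported] at *
  exact Set.subset_inter h1 h2

lemma Ep_eta (v : R) (c j : ℕ) {a : V n} (ha : ∀ l, eta c j l ≤ a l) :
    Ep v a ∈ supp R {ν : V n | ∀ l, eta c j l ≤ ν l} := by
  have e1 : a = (a + cst (-(c : ℤ))) + cst (c : ℤ) := by funext k; simp [cst]
  rw [e1, Ep_shift]
  refine mul_mem_supp (s := {cst (c : ℤ)}) ?_ (mon_mem rfl)
    (Ep_first_pos v j (μ := a + cst (-(c : ℤ))) ⟨fun l => ?_, fun l hl => ?_⟩)
  · rintro _ rfl ν hν l
    have := hν.1 l
    have := hν.2 l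
    simp only [Pi.add_apply, cst, eta]
    split_ifs with h
    · have := this h; omega
    · omega
  · have := ha l
    simp only [Pi.add_apply, cst, eta] at this ⊢
    split_ifs at this <;> omega
  · have := ha l
    simp only [Pi.add_apply, cst, eta, hl, if_true] at this ⊢
    omega

lemma coefZ {u v : R} (hu : IsNilpotent u) (hv : IsNilpotent v) {d : ℤ} {f : L R n}
    (hm : f ∈ supp R ({ν : V n | ∀ l, 0 ≤ ν l} ∩ {ν : V n | ∑ l, ν l = d})) :
    ph (C v) 0 (bc f * Zc (C v) (cu u)) = C (u ^ d.toNat) * rc f := by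
  refine supp_ind (P := fun f => ph (C v) 0 (bc f * Zc (C v) (cu u)) =
    C (u ^ d.toNat) * rc f) (by simp) ?_ ?_ ?_ hm
  · intro f g hf hg; rw [map_add, add_mul, map_add, hf, hg, map_add, mul_add]
  · intro r f hf; rw [MP_a77f20_co.smul_eq, map_mul bc, bc_C, mul_assoc, ph_C_mul, hf, map_mul rc, rc_C]; ring
  · rintro μ ⟨h1, h2⟩
    rw [bc_mon, reproduce (hv.map C) (c := cu u) (fun a => nil_C hu _) h1, mon_eq_prod h1, ← h2]
    have : (∑ l, μ l).toNat = ∑ l, (μ l).toNat := by
      zify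
      rw [Int.toNat_of_nonneg (sum_nonneg fun l _ => h1 l)]
      exact sum_congr rfl fun l _ => (Int.toNat_of_nonneg (h1 l)).symm
    simp only [cu, mul_pow, prod_mul_distrib, prod_pow_eq_pow_sum, map_prod, map_pow, rc_X, this]

open Classical in
lemma coef_eta {u v : R} (hu : IsNilpotent u) (hv : IsNilpotent v) (c j : ℕ) (a : V n) :
    mon (snoc0 (eta c j)) * ph (C v) 0 (Ep (C v) a * (mon (-eta c j) * Zc (C v) (cu u))) =
      if ∀ l, eta c j l ≤ a l then
        C (u ^ (∑ l, a l - ∑ l, (eta c j : V n) l).toNat) * rc (Ep v a) else 0 := by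
  split_ifs with h
  · have hm : mon (-eta c j) * Ep v a ∈ supp R ({ν : V n | ∀ l, 0 ≤ ν l} ∩
        {ν : V n | ∑ l, ν l = ∑ l, a l - ∑ l, (eta c j : V n) l}) := by
      refine mul_mem_supp (s := {-eta c j}) ?_ (mon_mem rfl) (supp_inter (Ep_eta v c j h)
        (Ep_mem v (s := {ν : V n | ∑ l, ν l = ∑ l, a l}) (fun i j h => seg_sum _ h.ne) rfl))
      rintro _ rfl ν ⟨h1, h2⟩
      refine ⟨fun l => ?_, ?_⟩
      · have := h1 l
        simp only [Pi.add_apply, Pi.neg_apply]; omega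
      · simp only [Set.mem_ofPred_eq, Pi.add_apply, Pi.neg_apply, sum_add_distrib,
          sum_neg_distrib] at h2 ⊢
        omega
    have := coefZ hu hv hm
    rw [map_mul bc, bc_mon, bc_Ep, map_mul rc, rc_mon] at this
    rw [← mul_assoc, mul_comm (Ep _ _), this, snoc0_neg]
    have e : (mon (snoc0 (eta c j : V n)) : L R (n + 1)) * mon (-snoc0 (eta c j : V n)) = 1 := by
      rw [← mon_add]; simp
    linear_combination (C (u ^ (∑ l, a l - ∑ l, (eta c j : V n) l).toNat) * rc (Ep v a)) * e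
  · push Not at h
    obtain ⟨l0, hl0⟩ := h
    obtain ⟨l1, -, hl1⟩ := exists_min_image univ a ⟨l0, mem_univ _⟩
    have hp : mon (-eta c j) * Zc (C v) (cu u) ∈
        supp (L R (n + 1)) {ν : V n | ∀ l, ν l ≤ -eta c j l} := by
      refine mul_mem_supp (s := {-eta c j}) ?_ (mon_mem rfl)
        (Zc_mem (C v) (c := cu u) fun a => nil_C hu _)
      rintro _ rfl ν hν l
      have := hν l
      simp only [Pi.add_apply, Pi.neg_apply]; omega
    have h1 := hl1 l0 (mem_univ _)
    by_cases hc : a l1 < c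
    · rw [vanish (hv.map C) (l := l1) (fun k => hl1 k (mem_univ _)), mul_zero]
      refine supported_mono ?_ hp
      intro ν hν
      refine And.intro (fun k => ?_) ?_
      · have := hν k
        unfold eta at this; split_ifs at this <;> omega
      · have := hν l1
        unfold eta at this; split_ifs at this <;> omega
    · have h2 : a l0 = c ∧ (l0 : ℕ) < j := by
        unfold eta at hl0; split_ifs at hl0 with h <;> omega
      rw [vanish (hv.map C) (l := l0) (fun k => by have := hl1 k (mem_univ _); omega), mul_zero]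
      refine supported_mono ?_ hp
      intro ν hν
      refine And.intro (fun k => ?_) ?_
      · have := hν k
        unfold eta at this; split_ifs at this <;> omega
      · have := hν l0
        unfold eta at this; rw [if_pos h2.2] at this; omega

lemma ph_term' {v w : R} (r : R) (hv : IsNilpotent v) (hw : IsNilpotent w) (m : ℤ) {a : V n}
    (ha : ∀ l, 0 ≤ a l) :
    ph v w (mon (cst (-m)) * ev (C (C r * rc (Ep v a)) * Em (C v) (-a))) =
      r * F v w (snoc0 a) (cons0 a + cst m) := by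
  rw [map_mul ev, ev_C, ← bc_Em, ev_bc, rs_Em v fun l => by simpa using ha l, rc_Ep v ha,
    mul_left_comm, mul_assoc, ph_C_mul, ← Em_shift, pieri hv hw, cons0_neg]
  congr 2
  funext k; simp [cst]; ring

theorem sym_eta {u v w : R} (hu : IsNilpotent u) (hv : IsNilpotent v) (hw : IsNilpotent w)
    (m : ℤ) (c j : ℕ) (W : Finset (V n)) (hW : ∀ a ∈ W, ∀ l, eta c j l ≤ a l)
    (hW' : ∀ a : V n, (∀ l, eta c j l ≤ a l) → (∀ l, snoc0 a l ≤ cons0 a l + m) → a ∈ W) :
    ∑ a ∈ W, u ^ (∑ l, a l - ∑ l, (eta c j : V n) l).toNat * F v w (snoc0 a) (cons0 a + cst m) =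
      CT (mon (cst (-m)) * mon (snoc0 (eta c j)) * mon (cons0 (-eta c j)) * Om w (n + 1) *
        Gsym u v n) := by
  classical
  have hc : ∀ a : Fin n, IsNilpotent (cu u a) := fun a => nil_C hu _
  have hp : mon (-eta c j) * Zc (C v) (cu u) ∈ supp (L R (n + 1)) {ν : V n | ∀ l, ν l ≤ 0} :=
    cl_le.mul (mon_mem fun l => by simpa using eta_nonneg c j l) (Zc_mem (C v) hc)
  obtain ⟨T0, -, h1⟩ := expand (hv.map C) hp
  have h2 : C (mon (snoc0 (eta c j))) * (mon (-eta c j) * Zc (C v) (cu u)) =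
      ∑ a ∈ (T0 ∪ W) with ∀ l, eta c j l ≤ a l,
        C (C (u ^ (∑ l, a l - ∑ l, (eta c j : V n) l).toNat) * rc (Ep v a)) * Em (C v) (-a) := by
    rw [congrArg (C (mon (snoc0 (eta c j))) * ·) (h1 (T0 ∪ W) subset_union_left), mul_sum,
      sum_filter]
    refine sum_congr rfl fun a _ => ?_
    rw [← mul_assoc, ← map_mul, coef_eta hu hv]
    split_ifs <;> simp
  have h3 := congrArg (fun p => ph v w (mon (cst (-m)) * ev p)) h2
  simp only [map_sum ev, mul_sum, map_sum (ph v w)] at h3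
  have h4 : ∀ a ∈ (T0 ∪ W).filter fun a => ∀ l, eta c j l ≤ a l, ph v w (mon (cst (-m)) *
      ev (C (C (u ^ (∑ l, a l - ∑ l, (eta c j : V n) l).toNat) * rc (Ep v a)) * Em (C v) (-a))) =
      u ^ (∑ l, a l - ∑ l, (eta c j : V n) l).toNat * F v w (snoc0 a) (cons0 a + cst m) :=
    fun a ha => ph_term' _ hv hw m fun l => (eta_nonneg c j l).trans ((mem_filter.1 ha).2 l)
  rw [sum_congr rfl h4] at h3
  rw [sum_subset (s₂ := (T0 ∪ W).filter fun a => ∀ l, eta c j l ≤ a l)
    (fun a ha => mem_filter.2 ⟨mem_union_right _ ha, hW a ha⟩), ← h3, ← ev_Zc_Del hu, ph_apply,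
    map_mul ev, map_mul ev, ev_C, ev_mon]
  · exact congrArg CT (by ring)
  · intro a ha ha'
    have : ¬ ∀ l, snoc0 a l ≤ (cons0 a + cst m : V (n + 1)) l :=
      fun h => ha' (hW' a (mem_filter.1 ha).2 h)
    rw [F, if_neg this, mul_zero]

/-- Generating function with the area measured from `e`. -/
def genE (m : ℕ) (e : ℤ) (S : Finset (Fin n → ℤ)) (q t : R) : R :=
  ∑ γ ∈ S, q ^ (area γ - e).toNat * t ^ (dinv m γ).toNat

lemma map_genE {R' : Type*} [CommRing R'] (φ : R →+* R') (m : ℕ) (e : ℤ)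
    (S : Finset (Fin n → ℤ)) (q t : R) : φ (genE m e S q t) = genE m e S (φ q) (φ t) := by
  simp [genE]

lemma sym_nil {u v w : R} (hu : IsNilpotent u) (hv : IsNilpotent v) (hw : IsNilpotent w)
    (m c j : ℕ) (W : Finset (Fin (n + 1) → ℤ))
    (hW : ∀ γ, γ ∈ W ↔ γ ∈ dyckWords m (n + 1) ∧ ∀ l : Fin n, eta c j l ≤ γ l.succ) :
    w ^ ((n + 1) * m) * genE m (∑ l, (eta c j : V n) l) W u v =
      CT (mon (cst (-(m : ℤ))) * mon (snoc0 (eta c j)) * mon (cons0 (-eta c j)) * Om w (n + 1) *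
        Gsym u v n) := by
  rw [← sym_eta hu hv hw m c j (W.preimage cons0 cons0_inj.injOn)
    (fun a ha => ((hW _).1 (mem_preimage.1 ha)).2)
    (fun a h1 h2 => mem_preimage.2 ((hW _).2 ⟨mem_dyck_cons0.2
      ⟨fun l => (eta_nonneg c j l).trans (h1 l), h2⟩, h1⟩)), genE, mul_sum]
  symm
  refine sum_nbij cons0 (fun a ha => ?_) cons0_inj.injOn (fun γ hγ => ?_) (fun a ha => ?_)
  · simpa using ha
  · have : cons0 (fun i => γ i.succ) = γ := by
      funext k; refine Fin.cases ?_ (fun i => rfl) k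
      exact (((hW _).1 hγ).1.1 0 rfl).symm
    exact ⟨fun i => γ i.succ, by simpa [this] using hγ, this⟩
  · obtain ⟨b1, b2⟩ := mem_dyck_cons0.1 ((hW _).1 (mem_preimage.1 ha)).1
    have b3 : ∀ l, snoc0 a l ≤ (cons0 a + cst m : V (n + 1)) l := b2
    have b4 : area (cons0 a) = ∑ l, a l := by simp [area, Fin.sum_univ_succ]
    have b5 : (∑ l, (cons0 a + cst m : V (n + 1)) l - ∑ l, snoc0 a l).toNat = (n + 1) * m := by
      have c1 : ∑ l, snoc0 a l = ∑ l, a l := by
        rw [Fin.sum_univ_castSucc]; simp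
      have c2 : ∑ l, (cons0 a + cst m : V (n + 1)) l =
          ∑ l, a l + (((n + 1) * m : ℕ) : ℤ) := by
        simp only [Pi.add_apply, sum_add_distrib]
        rw [Fin.sum_univ_succ]; simp [cst]
      rw [c1, c2]; omega
    rw [F, if_pos b3, hh_dinv b1 b2, b4, b5]; ring

open Polynomial in
theorem sym_words {Q : Type*} [CommRing Q] (q t : Q) (m c j : ℕ)
    (W : Finset (Fin (n + 1) → ℤ))
    (hW : ∀ γ, γ ∈ W ↔ γ ∈ dyckWords m (n + 1) ∧ ∀ l : Fin n, eta c j l ≤ γ l.succ) :
    genE m (∑ l, (eta c j : V n) l) W q t = genE m (∑ l, (eta c j : V n) l) W t q := by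
  set u : Q[X] := Polynomial.X * Polynomial.C q
  set v : Q[X] := Polynomial.X * Polynomial.C t
  set P : Q[X] := Polynomial.X ^ ((n + 1) * m) * genE m (∑ l, (eta c j : V n) l) W u v -
    Polynomial.X ^ ((n + 1) * m) * genE m (∑ l, (eta c j : V n) l) W v u with hP
  have h1 : ∀ N : ℕ, (Polynomial.X : Q[X]) ^ N ∣ P := by
    intro N
    have hX : IsNilpotent (AdjoinRoot.mk ((Polynomial.X : Q[X]) ^ N) Polynomial.X) :=
      ⟨N, by rw [← map_pow, AdjoinRoot.mk_self]⟩
    have hu : IsNilpotent (AdjoinRoot.mk ((Polynomial.X : Q[X]) ^ N) u) := by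
      rw [map_mul]; exact nil_mul hX _
    have hv : IsNilpotent (AdjoinRoot.mk ((Polynomial.X : Q[X]) ^ N) v) := by
      rw [map_mul]; exact nil_mul hX _
    rw [← AdjoinRoot.mk_eq_zero, hP]
    simp only [map_mul, map_sub, map_pow, map_genE]
    rw [sym_nil hu hv hX m c j W hW, sym_nil hv hu hX m c j W hW, Gsym_comm, sub_self]
  have h2 : P = 0 := by
    ext k
    exact Polynomial.X_pow_dvd_iff.1 (h1 (k + 1)) k (Nat.lt_succ_self k)
  have h3 := congrArg (Polynomial.evalRingHom (1 : Q)) h2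
  rw [hP] at h3
  simp only [map_mul, map_sub, map_pow, map_genE, u, v, coe_evalRingHom, eval_X, eval_C, one_mul,
    one_pow, eval_zero] at h3
  linear_combination h3

end Pool.Agent.Lib.GC95
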