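import Pool.Agent.Lib.GC95.Dinv
import Pool.Agent.Lib.GC95.Sym

namespace Pool.Agent.Lib.GC95

open Finset YoungDiagram Pool.Agent.Lib.MP_a77f20_co

variable {m : ℕ}

def word (m n : ℕ) (γ : YoungDiagram) : Fin (n + 1) → ℤ := fun i => uv m n γ (Fin.rev i)

lemma word_apply (n : ℕ) (γ : YoungDiagram) (i : Fin (n + 1)) :
    word m n γ i = m * (i : ℕ) - γ.rowLen (n - i) := by
  have := i.2
  unfold word uv
  rw [Fin.val_rev, show n + 1 - (i + 1) = n - i by omega, Nat.cast_sub (by omega)]
  ring

lemma area_word (n : ℕ) (γ : YoungDiagram) :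
    area (word m n γ) = ∑ a : Fin (n + 1), uv m n γ a :=
  Equiv.sum_comp Fin.revPerm (fun a : Fin (n + 1) => uv m n γ a)

lemma dinv_word {γ : YoungDiagram} {n : ℕ} (H : ∀ i, γ.rowLen i ≤ m * (n - i)) :
    dinv m (word m n γ) = dinvY m γ := by
  rw [dinv_eq H, pr, dinv, sum_comm, ← Equiv.sum_comp Fin.revPerm]
  refine sum_congr rfl fun a _ => ?_
  rw [← Equiv.sum_comp Fin.revPerm]
  refine sum_congr rfl fun b _ => ?_
  simp only [Fin.revPerm_apply, Fin.rev_lt_rev, word, Fin.rev_rev]
  congr 2
  unfold wv uv; ring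

lemma dyck_le {n : ℕ} {g : Fin n → ℤ} (hg : g ∈ dyckWords m n) (i : Fin n) :
    g i ≤ m * (i : ℕ) := by
  obtain ⟨h0, -, h2⟩ := hg
  have : ∀ k : ℕ, ∀ i : Fin n, (i : ℕ) = k → g i ≤ m * k := by
    intro k
    induction k with
    | zero => intro i hi; simp [h0 i hi]
    | succ k ih =>
      intro i hi
      have := h2 ⟨k, by omega⟩ i hi
      have := ih ⟨k, by omega⟩ rfl
      push_cast; linarith
  exact this i i rfl

lemma exists_word {n : ℕ} {g : Fin (n + 1) → ℤ} (hg : g ∈ dyckWords m (n + 1)) :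
    ∃ γ : YoungDiagram, γ.rowLen n = 0 ∧ word m n γ = g := by
  set f : ℕ → ℕ := fun i => ((m : ℤ) * (n - i : ℕ) - g ⟨n - i, by omega⟩).toNat with hf
  have hz : ∀ i, n ≤ i → f i = 0 := by
    intro i hi
    have := hg.1 ⟨n - i, by omega⟩ (by simp; omega)
    simp only [hf]
    rw [this, show n - i = 0 by omega]; simp
  have ha : Antitone f := by
    refine antitone_nat_of_succ_le fun i => ?_
    rcases le_or_gt n i with h | h
    · rw [hz (i + 1) (by omega)]; exact Nat.zero_le _
    · have := hg.2.2 ⟨n - (i + 1), by omega⟩ ⟨n - i, by omega⟩ (by simp; omega)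
      have e : ((n - i : ℕ) : ℤ) = (n - (i + 1) : ℕ) + 1 := by omega
      simp only [hf]
      rw [e, mul_add]
      omega
  refine ⟨mkY f ha n (hz n le_rfl), by rw [rowLen_mkY, hz n le_rfl], funext fun i => ?_⟩
  have h1 := i.2
  have h2 := dyck_le hg i
  have h3 : n - (n - i) = i := by omega
  rw [word_apply, rowLen_mkY]
  simp only [hf, h3, Fin.eta]
  omega

theorem sym_lev (hm : 1 ≤ m) (N : ℕ) {Q : Type*} [CommRing Q] (q t : Q) :
    ∑ γ ∈ (finite_lev hm N).toFinset, q ^ (N - γ.card) * t ^ dinvY m γ =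
      ∑ γ ∈ (finite_lev hm N).toFinset, t ^ (N - γ.card) * q ^ dinvY m γ := by
  classical
  obtain ⟨⟨r, j0⟩, rfl⟩ : ∃ c, rk m c = N := ⟨_, rk_cell hm N⟩
  set x := j0 + m * r with hx
  set n := x / m + 1 with hn
  have hr : r < n := by
    have := key_div hm r j0
    rw [← hx] at this
    generalize j0 / m = z at this
    omega
  have hxn : x < m * n := Nat.lt_mul_div_succ x hm
  have hxn' : m * n ≤ x + m := by
    have := Nat.mul_div_le x m
    rw [hn, mul_add]; omega
  clear_value n
  set B : ℕ → ℕ := fun i => x - m * i + if i < r then 1 else 0 with hB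
  have hrk : ∀ i j, rk m (i, j) < rk m (r, j0) ↔ j < B i := by
    intro i j
    rw [rk_lt_iff hm]
    simp only [hB, ← hx]
    split_ifs with h
    · have : m * i ≤ m * r := Nat.mul_le_mul_left m h.le
      omega
    · omega
  have hlev : ∀ γ : YoungDiagram, lev m γ ≤ rk m (r, j0) ↔ ∀ i, γ.rowLen i ≤ B i := by
    intro γ
    rw [lev_le]
    refine ⟨fun h i => ?_, fun h c hc => ?_⟩
    · by_contra hc
      have := (hrk i (B i)).1 (h _ (mem_iff_lt_rowLen.2 (not_le.1 hc)))
      omega
    · exact (hrk c.1 c.2).2 (lt_of_lt_of_le (mem_iff_lt_rowLen.1 hc) (h _))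
  have hBz : ∀ i, n ≤ i → B i = 0 := by
    intro i hi
    have : m * n ≤ m * i := Nat.mul_le_mul_left m hi
    simp only [hB]
    rw [if_neg (by omega)]; omega
  have hBe : ∀ l : Fin n, (eta (m * n - x - 1) (n - r) : V n) l =
      m * ((l.succ : Fin (n + 1)) : ℕ) - B (n - (l.succ : Fin (n + 1))) := by
    intro l
    have h1 := l.2
    have h2 : m * n = m * (n - (l + 1)) + m * (l + 1) := by
      rw [← mul_add]; congr 1; omega
    have h3 : m * 1 ≤ m * (l + 1) := Nat.mul_le_mul_left m (by omega)
    simp only [eta, hB, Fin.val_succ]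
    rw [← Nat.cast_mul]
    split_ifs <;> omega
  have hBH : ∀ i, B i ≤ m * (n - i) := by
    intro i
    rcases le_or_gt n i with h | h
    · rw [hBz i h]; exact Nat.zero_le _
    · have h2 : m * n = m * (n - i) + m * i := by rw [← mul_add]; congr 1; omega
      simp only [hB]
      split_ifs with h'
      · have : m * i ≤ m * r := Nat.mul_le_mul_left m h'.le
        omega
      · omega
  have hBa : Antitone B := by
    intro i i' h
    have : m * i ≤ m * i' := Nat.mul_le_mul_left m h
    simp only [hB]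
    split_ifs <;> omega
  have hmem : ∀ γ, γ ∈ (finite_lev hm (rk m (r, j0))).toFinset ↔ ∀ i, γ.rowLen i ≤ B i :=
    fun γ => (Set.Finite.mem_toFinset _).trans (hlev γ)
  have hH : ∀ γ ∈ (finite_lev hm (rk m (r, j0))).toFinset, ∀ i, γ.rowLen i ≤ m * (n - i) :=
    fun γ hγ i => ((hmem γ).1 hγ i).trans (hBH i)
  have hT : ((rk m (r, j0) : ℕ) : ℤ) = ∑ a : Fin (n + 1), (m : ℤ) * ((n : ℤ) - a) -
      ∑ l, (eta (m * n - x - 1) (n - r) : V n) l := by
    set T := mkY B hBa n (hBz n le_rfl)
    have h1 : ∀ i, T.rowLen i = B i := rowLen_mkY _ _ _ _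
    have h2 : T.card = rk m (r, j0) := by
      rw [card_eq_ranks hm ((hlev T).2 fun i => (h1 i).le), filter_true_of_mem, card_range]
      intro k hk
      rw [mem_range, ← rk_cell hm k] at hk
      exact mem_iff_lt_rowLen.2 (by rw [h1]; exact (hrk _ _).1 hk)
    rw [← h2, card_uv (n := n) fun i => (h1 i).trans_le (hBH i), ← area_word, area,
      Fin.sum_univ_succ (word m n T)]
    simp only [word_apply, h1, hBe]
    simp [hBz n le_rfl]
  have hW : ∀ g, g ∈ (finite_lev hm (rk m (r, j0))).toFinset.image (word m n) ↔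
      g ∈ dyckWords m (n + 1) ∧
        ∀ l : Fin n, (eta (m * n - x - 1) (n - r) : V n) l ≤ g l.succ := by
    intro g
    rw [mem_image]
    constructor
    · rintro ⟨γ, hγ, rfl⟩
      refine ⟨⟨fun i hi => ?_, fun i => ?_, fun i j hij => ?_⟩, fun l => ?_⟩
      · have := hH γ hγ n
        rw [word_apply, hi]
        simpa using this
      · have h1 := hH γ hγ (n - i)
        have h2 := i.2
        rw [show n - (n - i) = i by omega] at h1
        rw [word_apply, ← Nat.cast_mul]; omega
      · have := γ.rowLen_anti (n - j) (n - i) (by omega)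
        rw [word_apply, word_apply, hij] at *
        push_cast
        rw [mul_add]; omega
      · have := (hmem γ).1 hγ (n - (l.succ : Fin (n + 1)))
        rw [hBe, word_apply]; omega
    · rintro ⟨h1, h2⟩
      obtain ⟨γ, h3, rfl⟩ := exists_word h1
      refine ⟨γ, (hmem γ).2 fun i => ?_, rfl⟩
      rcases le_or_gt n i with h | h
      · have := γ.rowLen_anti n i h; omega
      · have := h2 ⟨n - i - 1, by omega⟩
        rw [hBe, word_apply] at this
        simp only [Fin.val_succ, show n - (n - i - 1 + 1) = i by omega] at this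
        omega
  have hinj : Set.InjOn (word m n) (finite_lev hm (rk m (r, j0))).toFinset := by
    intro γ hγ γ' hγ' h
    refine ext_row fun i => ?_
    rcases le_or_gt n i with hi | hi
    · have a1 := hH γ hγ i
      have a2 := hH γ' hγ' i
      rw [show n - i = 0 by omega] at a1 a2
      omega
    · have := congrFun h ⟨n - i, by omega⟩
      rw [word_apply, word_apply] at this
      simp only [show n - (n - i) = i by omega] at this
      omega
  have key : ∀ q t : Q, genE m (∑ l, (eta (m * n - x - 1) (n - r) : V n) l)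
      ((finite_lev hm (rk m (r, j0))).toFinset.image (word m n)) q t =
      ∑ γ ∈ (finite_lev hm (rk m (r, j0))).toFinset,
        q ^ (rk m (r, j0) - γ.card) * t ^ dinvY m γ := by
    intro q t
    rw [genE, sum_image hinj]
    refine sum_congr rfl fun γ hγ => ?_
    have := card_uv (hH γ hγ)
    rw [dinv_word (hH γ hγ), area_word, Int.toNat_natCast]
    congr 2
    omega
  rw [← key, ← key]
  exact sym_words q t m _ _ _ hW

theorem sym_count (hm : 1 ≤ m) (k a b : ℕ) :
    {γ : YoungDiagram | γ.card - dinvY m γ = k ∧ dinvY m γ = a ∧ lev m γ - γ.card ≤ b}.ncard =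
    {γ : YoungDiagram | γ.card - dinvY m γ = k ∧ dinvY m γ = b ∧ lev m γ - γ.card ≤ a}.ncard := by
  have h := sym_lev hm (a + b + k) (MvPolynomial.X 0 : MvPolynomial (Fin 2) ℤ) (MvPolynomial.X 1)
  have e1 := coeff_sum_mon (finite_lev hm (a + b + k)).toFinset
    (fun γ => (a + b + k - γ.card, dinvY m γ)) (b, a)
  have e2 := coeff_sum_mon (finite_lev hm (a + b + k)).toFinset
    (fun γ => (dinvY m γ, a + b + k - γ.card)) (b, a)
  simp only at e1 e2
  rw [h, sum_congr rfl fun γ _ => mul_comm _ _, e2, Nat.cast_inj] at e1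
  rw [← Set.ncard_coe_finset, ← Set.ncard_coe_finset] at e1
  refine Eq.trans ?_ (e1.symm.trans ?_)
  · congr 1
    ext γ
    have := dinv_le_card (m := m) γ
    have := card_le_lev hm γ
    simp only [Set.mem_ofPred_eq, coe_filter, Set.Finite.mem_toFinset, Prod.mk.injEq]
    omega
  · congr 1
    ext γ
    have := dinv_le_card (m := m) γ
    have := card_le_lev hm γ
    simp only [Set.mem_ofPred_eq, coe_filter, Set.Finite.mem_toFinset, Prod.mk.injEq]
    omega

end Pool.Agent.Lib.GC95
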