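import Pool.Agent.Lib.GC95.Tail
import Pool.Agent.Lib.GC95.SymY
import Pool.Agent.Lib.GC95.Ladder

namespace Pool.Agent.Lib.GC95

open Set

lemma cat_eq {m : ℕ} (hm : 1 ≤ m) {T : YoungDiagram} (hT : IsTri m T) {S S' : Set YoungDiagram}
    {k : ℕ} (hk : ∀ γ ∈ S, γ.card = dinvY m γ + k) (hk' : ∀ γ ∈ S', γ.card = dinvY m γ + k)
    (hi : InjOn (dinvY m) S) (hi' : InjOn (dinvY m) S')
    (ho : ∀ i j, (∃ γ ∈ S, dinvY m γ = i ∧ lev m γ - γ.card ≤ j) ↔
      ∃ γ ∈ S', dinvY m γ = j ∧ lev m γ - γ.card ≤ i) (q t : MvPolynomial (Fin 2) ℤ) :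
    cat m T S q t = cat m T S' t q := by
  have key : ∀ (S : Set YoungDiagram) (q t : MvPolynomial (Fin 2) ℤ),
      (∀ γ ∈ S, γ.card = dinvY m γ + k) → InjOn (dinvY m) S → cat m T S q t =
        ∑ᶠ i ∈ dinvY m '' {γ ∈ S | γ ≤ T}, q ^ (T.card - k - i) * t ^ i := by
    intro S q t hk hi
    rw [finsum_mem_image (hi.mono fun γ hγ => hγ.1), cat]
    refine finsum_mem_congr rfl fun γ hγ => ?_
    rw [hk γ hγ.1, add_comm, Nat.sub_add_eq]
  have mem : ∀ (S : Set YoungDiagram) (i : ℕ), (∀ γ ∈ S, γ.card = dinvY m γ + k) →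
      (i ∈ dinvY m '' {γ ∈ S | γ ≤ T} ↔ i + k ≤ T.card ∧
        ∃ γ ∈ S, dinvY m γ = i ∧ lev m γ - γ.card ≤ T.card - k - i) := by
    intro S i hk
    constructor
    · rintro ⟨γ, ⟨h1, h2⟩, rfl⟩
      have := (le_tri hm hT).1 h2
      have := card_le_lev hm γ
      have := hk γ h1
      exact ⟨by omega, γ, h1, rfl, by omega⟩
    · rintro ⟨h0, γ, h1, rfl, h2⟩
      have := hk γ h1
      exact ⟨γ, ⟨h1, (le_tri hm hT).2 (by omega)⟩, rfl⟩
  rw [key S q t hk hi, key S' t q hk' hi']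
  refine finsum_mem_eq_of_bijOn (fun i => T.card - k - i) ⟨fun i hi => ?_, fun i hi j hj h => ?_,
    fun j hj => ?_⟩ fun i hi => ?_
  · obtain ⟨h1, h2⟩ := (mem S i hk).1 hi
    refine (mem S' (T.card - k - i) hk').2 ⟨by omega, ?_⟩
    rw [show T.card - k - (T.card - k - i) = i by omega]
    exact (ho _ _).1 h2
  · have := ((mem S i hk).1 hi).1
    have := ((mem S j hk).1 hj).1
    simp only at h
    omega
  · obtain ⟨h1, h2⟩ := (mem S' j hk').1 hj
    refine ⟨T.card - k - j, (mem S _ hk).2 ⟨by omega, ?_⟩, by simp only; omega⟩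
    rw [show T.card - k - (T.card - k - j) = j by omega]
    exact (ho _ _).2 h2
  · have := ((mem S i hk).1 hi).1
    rw [show T.card - k - (T.card - k - i) = i by omega, mul_comm]

theorem global_chains (m : ℕ) (hm : 1 ≤ m) :
    ∃ (C : YoungDiagram → Set YoungDiagram) (star : YoungDiagram → YoungDiagram),
      (∀ μ, star (star μ) = μ) ∧ (∀ μ, (star μ).card = μ.card) ∧ (∀ γ, ∃! μ, γ ∈ C μ) ∧
      (∀ μ, ∀ γ ∈ C μ, γ.card = dinvY m γ + μ.card) ∧ (∀ μ, InjOn (dinvY m) (C μ)) ∧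
      (∀ μ i, (∃ γ ∈ C μ, dinvY m γ = i) ↔ (star μ).colLen 0 ≤ i) ∧
      (∀ μ γ γ', Nu m γ γ' → (γ ∈ C μ ↔ γ' ∈ C μ)) ∧ (∀ μ, ∃ γ ∈ C μ, IsTI m μ γ) ∧
      ∀ μ T, IsTri m T → cat m T (C μ) (MvPolynomial.X 0) (MvPolynomial.X 1) =
        cat m T (C (star μ)) (MvPolynomial.X 1) (MvPolynomial.X 0) := by
  obtain ⟨C, star, c1, c2, c3, c4, c5, c6, c7, c8, c9⟩ := ladder
    (fun γ : YoungDiagram => γ.card - dinvY m γ) (dinvY m) (fun γ => lev m γ - γ.card)
    (fun k a b => (finite_lev hm (a + b + k)).subset fun γ hγ => by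
      have := dinv_le_card (m := m) γ
      simp only [mem_ofPred_eq] at hγ ⊢
      omega)
    (sym_count hm) (Nu m)
    (fun γ γ' γ'' h h' => ext_row fun i => by
      rcases i with _ | i
      · rw [h.2.1, h'.2.1]
      · rw [h.2.2, h'.2.2])
    (fun γ γ' γ'' h h' => by
      ext c
      exact (((nu_iff hm).1 h).2 c).symm.trans (((nu_iff hm).1 h').2 c))
    (fun γ γ' h => by
      have := h.dinv_succ hm
      have := ((nu_iff hm).1 h).lev_eq hm
      have := ((nu_iff hm).1 h).card_eq hm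
      omega)
    (tl hm) (tl_nu hm) (fun _ _ _ _ h => tl_inj hm h)
    (fun k b D => ⟨base m (m * (k + 2 * b + D + 1)) - k - b, by
      have := le_base hm (k + 2 * b + D + 1)
      omega, fun γ h1 h2 h3 => by
      have := le_base hm (k + 2 * b + D + 1)
      have := dinv_le_card (m := m) γ
      have := card_le_lev hm γ
      exact exists_tl hm (n := k + 2 * b + D + 1) (by omega) (by omega)⟩)
  have d1 : ∀ μ, (tl hm μ 0).card - dinvY m (tl hm μ 0) = μ.card := fun μ =>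
    (tl_isTI hm μ).deficit_eq hm
  have d2 : ∀ μ, lev m (tl hm μ 0) - (tl hm μ 0).card = μ.colLen 0 := fun μ => by
    rw [tl_lev, tl_card]; omega
  simp only [d1, d2] at c2 c4 c6
  have d3 : ∀ μ, ∀ γ ∈ C μ, γ.card = dinvY m γ + μ.card := fun μ γ hγ => by
    have := c4 μ γ hγ
    have := dinv_le_card (m := m) γ
    omega
  exact ⟨C, star, c1, c2, c3, d3, c5, c6, c7, fun μ => ⟨_, c8 μ, tl_isTI hm μ⟩, fun μ T hT =>
    cat_eq hm hT (d3 μ) (fun γ hγ => c2 μ ▸ d3 _ γ hγ) (c5 μ) (c5 _) (c9 μ) _ _⟩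

end Pool.Agent.Lib.GC95
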