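import Pool.Agent.Lib.GC95.Dinv

namespace Pool.Agent.Lib.GC95

open Finset YoungDiagram Pool.Agent.Lib.MP_a77f20_co

variable {m : ℕ}

lemma le_base (hm : 1 ≤ m) (n : ℕ) : n ≤ base m (m * n) := by
  have h1 := base_add m 0 (m * n)
  have h2 : n ≤ m * n := Nat.le_mul_of_pos_left _ hm
  rw [zero_add] at h1
  omega

lemma base_top (hm : 1 ≤ m) (n : ℕ) : base m (m * n) = base m (m * n - 1) + n := by
  rcases n with _ | n
  · simp
  · have h1 : m * (n + 1) = m - 1 + m * n + 1 := by rw [mul_add]; omega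
    rw [h1, base_succ, key_div hm, Nat.div_eq_of_lt (by omega), Nat.add_sub_cancel]
    omega

lemma base_mul (hm : 1 ≤ m) (n : ℕ) :
    ((base m (m * n) : ℕ) : ℤ) = ∑ a : Fin (n + 1), (m : ℤ) * ((n : ℤ) - a) := by
  induction n with
  | zero => simp [base]
  | succ n ih =>
    have h1 : base m (m * (n + 1)) = base m (m * n) + m * (n + 1) := by
      rw [mul_add, mul_one, base, sum_range_add, ← base, sum_congr rfl (g := fun _ => n + 1)]
      · simp [mul_add]
      · intro y hy
        rw [add_comm (m * n), key_div hm, Nat.div_eq_of_lt (mem_range.1 hy), zero_add]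
    rw [h1, Fin.sum_univ_succ, Nat.cast_add, ih]
    simp only [Fin.val_zero, Fin.val_succ]
    push_cast
    have : ∑ a : Fin (n + 1), (m : ℤ) * ((n : ℤ) + 1 - (((a : ℕ) : ℤ) + 1)) =
        ∑ a : Fin (n + 1), (m : ℤ) * ((n : ℤ) - (a : ℕ)) := sum_congr rfl fun a _ => by ring
    rw [this]; ring

def Z (m : ℕ) (μ : YoungDiagram) : ℕ := base m (m * (μ.rowLen 0 + μ.colLen 0)) - μ.colLen 0

lemma Z_add (hm : 1 ≤ m) (μ : YoungDiagram) :
    Z m μ + μ.colLen 0 = base m (m * (μ.rowLen 0 + μ.colLen 0)) ∧ μ.rowLen 0 ≤ Z m μ := by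
  have := le_base hm (μ.rowLen 0 + μ.colLen 0)
  unfold Z; omega

lemma hole_lt {μ : YoungDiagram} {A k : ℕ} (h : ∀ b, k + μ.rowLen b ≠ A + b) :
    k < A + μ.colLen 0 := by
  by_contra hc
  have := h (k - A)
  have := row_pos (γ := μ) (i := k - A)
  omega

open Classical in
/-- The members of the tail of `μ`. -/
noncomputable def tl (hm : 1 ≤ m) (μ : YoungDiagram) (s : ℕ) : YoungDiagram where
  cells := ((range (Z m μ + s + μ.colLen 0)).image (cell m)).filter
    fun c => ∀ b, rk m c + μ.rowLen b ≠ Z m μ + s + b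
  isLowerSet := by
    rintro ⟨i, j⟩ ⟨i', j'⟩ ⟨h1, h2⟩ h
    simp only [coe_filter, Set.mem_ofPred_eq] at h h1 h2 ⊢
    have key : ∀ b, rk m (i', j') + μ.rowLen b ≠ Z m μ + s + b := by
      intro b hb
      have a1 := hole_lt h.2
      have a2 := μ.rowLen_anti 0 b (Nat.zero_le _)
      have a3 := Z_add hm μ
      have a4 := base_top hm (μ.rowLen 0 + μ.colLen 0)
      by_cases he : (i', j') = (i, j)
      · rw [he] at hb; exact h.2 b hb
      have a5 : j' + m * i' + 1 ≤ j + m * i := by
        rcases h1.lt_or_eq with h | h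
        · have : m * (i' + 1) ≤ m * i := Nat.mul_le_mul_left m h
          rw [mul_add] at this
          omega
        · subst h
          have : j' ≠ j := fun h => he (by rw [h])
          omega
      have a6 := base_mono m a5
      rw [base_succ] at a6
      have a7 := (rk_lt_base hm (c := (i', j')) (x := m * (μ.rowLen 0 + μ.colLen 0) - 1)).not.1
        (by omega)
      have a8 : μ.rowLen 0 + μ.colLen 0 ≤ (j' + m * i') / m + 1 := by
        have : m * (μ.rowLen 0 + μ.colLen 0) ≤ m * ((j' + m * i') / m + 1) :=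
          Nat.le_of_pred_lt (lt_of_le_of_lt (not_lt.1 a7) (Nat.lt_mul_div_succ _ hm))
        exact Nat.le_of_mul_le_mul_left this hm
      unfold rk at *
      simp only at *
      omega
    exact ⟨mem_image.2 ⟨_, mem_range.2 (hole_lt key), cell_rk hm _⟩, key⟩

lemma mem_tl (hm : 1 ≤ m) {μ : YoungDiagram} {s : ℕ} {c : ℕ × ℕ} :
    c ∈ tl hm μ s ↔ ∀ b, rk m c + μ.rowLen b ≠ Z m μ + s + b := by
  simp only [tl, YoungDiagram.mem_mk, mem_filter]
  exact ⟨fun h => h.2, fun h => ⟨mem_image.2 ⟨_, mem_range.2 (hole_lt h), cell_rk hm _⟩, h⟩⟩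

lemma tl_nu (hm : 1 ≤ m) (μ : YoungDiagram) (s : ℕ) : Nu m (tl hm μ s) (tl hm μ (s + 1)) := by
  refine (nu_iff hm).2 ⟨(mem_tl hm).2 fun b => ?_, fun c => ?_⟩
  · have := μ.rowLen_anti 0 b (Nat.zero_le _)
    have := (Z_add hm μ).2
    rw [rk_zero]; omega
  · rw [mem_tl, mem_tl, rk_nxt hm]
    exact forall_congr' fun b => by omega

lemma hole_mono {μ : YoungDiagram} {A : ℕ} (h : μ.rowLen 0 ≤ A) :
    StrictMono fun b => A + b - μ.rowLen b := by
  refine strictMono_nat_of_lt_succ fun b => ?_
  have := μ.rowLen_anti 0 b (Nat.zero_le _)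
  have := μ.rowLen_anti b (b + 1) (by omega)
  omega

lemma tl_lev_le (hm : 1 ≤ m) (μ : YoungDiagram) (s : ℕ) :
    lev m (tl hm μ s) ≤ Z m μ + s + μ.colLen 0 :=
  lev_le.2 fun _ hc => hole_lt ((mem_tl hm).1 hc)

lemma tl_card (hm : 1 ≤ m) (μ : YoungDiagram) (s : ℕ) : (tl hm μ s).card = Z m μ + s := by
  have h0 := (Z_add hm μ).2
  have h1 : (range (Z m μ + s + μ.colLen 0)).filter (fun k => cell m k ∈ tl hm μ s) =
      range (Z m μ + s + μ.colLen 0) \
        (range (μ.colLen 0)).image fun b => Z m μ + s + b - μ.rowLen b := by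
    ext k
    simp only [mem_filter, mem_tl, rk_cell hm, mem_sdiff, mem_image, mem_range, not_exists,
      not_and]
    refine and_congr_right fun hk => forall_congr' fun b => ?_
    have := μ.rowLen_anti 0 b (Nat.zero_le _)
    have := row_pos (γ := μ) (i := b)
    omega
  rw [card_eq_ranks hm (tl_lev_le hm μ s), h1, card_sdiff_of_subset,
    card_image_of_injective _ (hole_mono (by omega)).injective, card_range, card_range]
  · omega
  · intro k hk
    obtain ⟨b, hb, rfl⟩ := mem_image.1 hk
    rw [mem_range] at *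
    omega

lemma tl_lev (hm : 1 ≤ m) (μ : YoungDiagram) (s : ℕ) :
    lev m (tl hm μ s) = Z m μ + s + μ.colLen 0 := by
  refine le_antisymm (tl_lev_le hm μ s) ?_
  rcases hl : μ.colLen 0 with _ | l
  · have := card_le_lev hm (tl hm μ s)
    rwa [tl_card] at this
  · have : cell m (Z m μ + s + l) ∈ tl hm μ s := (mem_tl hm).2 fun b => by
      have := row_pos (γ := μ) (i := b)
      rw [rk_cell hm]; omega
    have := lt_lev (m := m) this
    rw [rk_cell hm] at this
    omega

lemma tl_inj (hm : 1 ≤ m) {μ μ' : YoungDiagram} {s s' : ℕ} (h : tl hm μ s = tl hm μ' s') :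
    μ = μ' := by
  have h1 : Z m μ + s = Z m μ' + s' := by rw [← tl_card hm, h, tl_card]
  have h2 := (Z_add hm μ).2
  have h3 := (Z_add hm μ').2
  have key : ∀ (μ : YoungDiagram) (s : ℕ), Set.range (fun b => Z m μ + s + b - μ.rowLen b) =
      {k | cell m k ∉ tl hm μ s} := by
    intro μ s
    ext k
    simp only [Set.mem_range, Set.mem_ofPred_eq, mem_tl, rk_cell hm, not_forall, not_not]
    refine exists_congr fun b => ?_
    have := μ.rowLen_anti 0 b (Nat.zero_le _)
    have := (Z_add hm μ).2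
    omega
  have h4 := ((hole_mono (μ := μ) (A := Z m μ + s) (by omega)).range_inj
    (hole_mono (μ := μ') (A := Z m μ' + s') (by omega))).1 (by rw [key, key, h])
  refine ext_row fun b => ?_
  have := congrFun h4 b
  have := μ.rowLen_anti 0 b (Nat.zero_le _)
  have := μ'.rowLen_anti 0 b (Nat.zero_le _)
  omega

lemma tl_isTI (hm : 1 ≤ m) (μ : YoungDiagram) : IsTI m μ (tl hm μ 0) := by
  intro i
  refine rowLen_eq fun j => ?_
  rw [mem_tl]
  have a3 := Z_add hm μ
  have a4 := base_top hm (μ.rowLen 0 + μ.colLen 0)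
  set n := μ.rowLen 0 + μ.colLen 0 with hn
  have a5 := rk_lt_base hm (c := (i, j)) (x := m * n)
  have a6 := rk_lt_base hm (c := (i, j)) (x := m * n - 1)
  simp only at a5 a6
  have a7 : i < n → m * n = m * (n - i) + m * i := fun h => by
    rw [← mul_add]; congr 1; omega
  have a8 : n ≤ i → m * n ≤ m * i ∧ m * (n - i) = 0 := fun h =>
    ⟨Nat.mul_le_mul_left m h, by rw [show n - i = 0 by omega, mul_zero]⟩
  rcases lt_trichotomy (j + m * i + 1) (m * n) with h | h | h
  · refine iff_of_true (fun b => ?_) (by split_ifs <;> omega)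
    have := μ.rowLen_anti 0 b (Nat.zero_le _)
    omega
  · have e : rk m (i, j) = base m (m * n - 1) + i := by
      unfold rk; simp only; rw [show j + m * i = m * n - 1 by omega]
    split_ifs with hb
    · obtain ⟨b, h1, h2⟩ := hb
      exact iff_of_false (fun h => h b (by omega)) (by omega)
    · refine iff_of_true (fun b hb' => ?_) (by omega)
      have := row_pos (γ := μ) (i := b)
      exact hb ⟨b, by omega, by omega⟩
  · exact iff_of_false (fun h => by have := hole_lt h; omega) (by omega)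

lemma pr_sq {n : ℕ} (u : Fin n → ℤ) :
    2 * pr (fun a b => u a * u b) = (∑ a, u a) ^ 2 - ∑ a, u a ^ 2 := by
  have h1 : pr (fun a b => u a * u b) = ∑ a, ∑ b, if b < a then u a * u b else 0 := by
    rw [pr, sum_comm]
    exact sum_congr rfl fun a _ => sum_congr rfl fun b _ => by rw [mul_comm]
  have h2 : ∑ a, u a ^ 2 = ∑ a, ∑ b, if a = b then u a * u b else 0 := by simp [sq]
  rw [two_mul]
  nth_rewrite 1 [h1]
  rw [pr, sq, sum_mul_sum, h2, ← sum_add_distrib, ← sum_sub_distrib]
  refine sum_congr rfl fun a _ => ?_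
  rw [← sum_add_distrib, ← sum_sub_distrib]
  refine sum_congr rfl fun b _ => ?_
  rcases lt_trichotomy a b with h | h | h
  · simp [h, h.ne, not_lt.2 h.le]
  · simp [h]
  · simp [h, h.ne', not_lt.2 h.le]

lemma IsTI.deficit_eq (hm : 1 ≤ m) {μ γ : YoungDiagram} (h : IsTI m μ γ) :
    γ.card - dinvY m γ = μ.card := by
  classical
  set n := μ.rowLen 0 + μ.colLen 0 with hn
  have H : ∀ i, γ.rowLen i ≤ m * (n - i) := fun i => by rw [h i]; exact Nat.sub_le _ _
  have hu : ∀ a : Fin (n + 1), uv m n γ a =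
      if ∃ b < μ.colLen 0, (a : ℕ) + μ.rowLen b = b + μ.rowLen 0 then 1 else 0 := by
    intro a
    have a1 := a.2
    unfold uv
    rw [h a, ← hn, ← Nat.cast_sub (by omega), ← Nat.cast_mul]
    split_ifs with hb
    · obtain ⟨b, h1, h2⟩ := hb
      have : 1 * 1 ≤ m * (n - a) := Nat.mul_le_mul hm (by omega)
      omega
    · simp
  have hs : ∀ φ : ℕ → ℤ, ∑ a : Fin (n + 1), uv m n γ a * φ a =
      ∑ b ∈ range (μ.colLen 0), φ (μ.rowLen 0 + b - μ.rowLen b) := by
    intro φ
    simp only [hu, ite_mul, one_mul, zero_mul]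
    rw [← sum_range (fun a => if ∃ b < μ.colLen 0, a + μ.rowLen b = b + μ.rowLen 0 then φ a
      else 0), ← sum_filter, ← sum_image (hole_mono le_rfl).injective.injOn]
    congr 1
    ext a
    simp only [mem_filter, mem_range, mem_image]
    constructor
    · rintro ⟨-, b, h1, h2⟩
      exact ⟨b, h1, by omega⟩
    · rintro ⟨b, h1, h2⟩
      have := μ.rowLen_anti 0 b (Nat.zero_le _)
      exact ⟨by omega, b, h1, by omega⟩
  have h01 : ∀ a : Fin (n + 1), uv m n γ a = 0 ∨ uv m n γ a = 1 := fun a => by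
    rw [hu]; split_ifs <;> simp
  have e1 : (pr fun a b : Fin (n + 1) => m - sc m (uv m n γ b - uv m n γ a)) =
      ∑ a : Fin (n + 1), uv m n γ a * ((n : ℤ) - (a : ℕ)) -
        pr fun a b : Fin (n + 1) => uv m n γ a * uv m n γ b := by
    rw [pr, pr, ← sum_sub_distrib]
    refine sum_congr rfl fun a _ => ?_
    have e1 : uv m n γ a * ((n : ℤ) - a) =
        ∑ b : Fin (n + 1), if a < b then uv m n γ a else 0 := by
      rw [← sum_filter, sum_const, filter_lt_eq_Ioi, Fin.card_Ioi]
      have := a.2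
      rw [nsmul_eq_mul, mul_comm]
      congr 1
      omega
    rw [e1, ← sum_sub_distrib]
    refine sum_congr rfl fun b _ => ?_
    split_ifs
    · rcases h01 a with h1 | h1 <;> rcases h01 b with h2 | h2 <;> rw [h1, h2] <;> unfold sc <;>
        split_ifs <;> omega
    · simp
  have e2 := hs fun _ => 1
  have e3 := hs fun a => (n : ℤ) - a
  have e4 := pr_sq fun a : Fin (n + 1) => uv m n γ a
  have e5 : ∑ a : Fin (n + 1), uv m n γ a ^ 2 = ∑ a : Fin (n + 1), uv m n γ a :=
    sum_congr rfl fun a _ => by rcases h01 a with h1 | h1 <;> simp [h1]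
  have e6 : ∑ b ∈ range (μ.colLen 0), ((n : ℤ) - (μ.rowLen 0 + b - μ.rowLen b : ℕ)) =
      μ.colLen 0 * μ.colLen 0 - (∑ b ∈ range (μ.colLen 0), b : ℕ) + μ.card := by
    rw [card_rows (n := μ.colLen 0) (by
      have := row_pos (γ := μ) (i := μ.colLen 0); omega)]
    have : (μ.colLen 0 : ℤ) * μ.colLen 0 = ∑ _b ∈ range (μ.colLen 0), (μ.colLen 0 : ℤ) := by simp
    rw [this]
    push_cast
    rw [← sum_sub_distrib, ← sum_add_distrib]
    refine sum_congr rfl fun b _ => ?_
    have := μ.rowLen_anti 0 b (Nat.zero_le _)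
    omega
  have e7 : ((∑ b ∈ range (μ.colLen 0), b : ℕ) : ℤ) * 2 = μ.colLen 0 * μ.colLen 0 - μ.colLen 0 := by
    generalize μ.colLen 0 = l
    induction l with
    | zero => simp
    | succ l ih => rw [sum_range_succ, Nat.cast_add, add_mul, ih]; push_cast; ring
  have e8 := deficit H
  simp only [mul_one, sum_const, card_range, nsmul_eq_mul] at e2
  rw [e5, e2, sq] at e4
  rw [e1, e2, e3, e6] at e8
  omega

lemma top_layer (hm : 1 ≤ m) {γ : YoungDiagram} {n : ℕ} (h1 : lev m γ = base m (m * n))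
    (h2 : γ.card - dinvY m γ + 2 * (lev m γ - γ.card) < n) {c : ℕ × ℕ}
    (hc : rk m c + n < lev m γ) : c ∈ γ := by
  have H : ∀ i, γ.rowLen i ≤ m * (n - i) := by
    intro i
    by_contra hc
    have := (rk_lt_base hm).1 (lev_le.1 h1.le (i, m * (n - i))
      (mem_iff_lt_rowLen.2 (not_le.1 hc)))
    simp only [← mul_add] at this
    have := Nat.lt_of_mul_lt_mul_left this
    omega
  have hu : ∀ a : Fin (n + 1), 0 ≤ uv m n γ a := by
    intro a
    have := H a
    have a1 := a.2
    unfold uv
    rw [← Nat.cast_sub (by omega), ← Nat.cast_mul]; omega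
  have e1 := card_uv H
  rw [← base_mul hm, ← h1] at e1
  have e2 := deficit H
  have e3 := dinv_le_card (m := m) γ
  have e4 := card_le_lev hm γ
  have hle : ∀ p : Fin (n + 1), uv m n γ p ≤ 1 := by
    intro p
    by_contra hp
    rw [peel _ p] at e2
    have b1 : 0 ≤ pr fun a b : Fin n =>
        m - sc m (uv m n γ (p.succAbove b) - uv m n γ (p.succAbove a)) :=
      sum_nonneg fun a _ => sum_nonneg fun b _ => by
        split_ifs
        · simp only [sc]; split_ifs <;> omega
        · rfl
    have b2 : ∑ a : Fin n, (1 - uv m n γ (p.succAbove a)) ≤ ∑ a : Fin n,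
        if p.succAbove a < p then (m : ℤ) - sc m (uv m n γ p - uv m n γ (p.succAbove a))
        else m - sc m (uv m n γ (p.succAbove a) - uv m n γ p) := by
      refine sum_le_sum fun a _ => ?_
      have := hu (p.succAbove a)
      unfold sc
      split_ifs <;> omega
    have b3 := Fin.sum_univ_succAbove (fun a : Fin (n + 1) => uv m n γ a) p
    rw [sum_sub_distrib] at b2
    simp only [sum_const, card_univ, Fintype.card_fin, nsmul_eq_mul, mul_one] at b2
    omega
  obtain ⟨i, j⟩ := c
  have a4 := base_top hm n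
  have a5 := (rk_lt_base hm (c := (i, j)) (x := m * n - 1)).1 (by omega)
  simp only at a5
  have a6 : i < n := Nat.lt_of_mul_lt_mul_left (a := m) (by omega)
  have a7 := hle ⟨i, by omega⟩
  have a8 : m * n = m * (n - i) + m * i := by rw [← mul_add]; congr 1; omega
  unfold uv at a7
  simp only at a7
  rw [← Nat.cast_sub a6.le, ← Nat.cast_mul] at a7
  rw [mem_iff_lt_rowLen]
  omega

lemma exists_tl (hm : 1 ≤ m) {γ : YoungDiagram} {n : ℕ} (h1 : lev m γ = base m (m * n))
    (h2 : γ.card - dinvY m γ + 2 * (lev m γ - γ.card) < n) : ∃ μ s, γ = tl hm μ s := by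
  classical
  set P : ℕ → Prop := fun k => cell m k ∉ γ with hP
  have e4 := card_le_lev hm γ
  have hinf : (Set.ofPred P).Infinite := by
    refine (Set.Ici_infinite (lev m γ)).mono fun k hk hc => ?_
    have := lt_lev (m := m) hc
    rw [rk_cell hm] at this
    exact absurd hk (not_le.2 this)
  have hcount : ∀ N, lev m γ ≤ N → Nat.count P N + γ.card = N := by
    intro N hN
    rw [Nat.count_eq_card_filter_range, card_eq_ranks hm hN, add_comm,
      card_filter_add_card_filter_not, card_range]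
  have hle : ∀ b, Nat.nth P b ≤ γ.card + b := by
    intro b
    have : b < Nat.count P (γ.card + b + 1) := by
      have a1 := card_filter_add_card_filter_not (s := range (γ.card + b + 1))
        (fun k => cell m k ∈ γ)
      have a2 : ((range (γ.card + b + 1)).filter fun k => cell m k ∈ γ).card ≤ γ.card := by
        refine card_le_card_of_injOn (cell m) (fun k hk => ?_) (fun k _ k' _ h => ?_)
        · simp only [coe_filter, Set.mem_ofPred_eq] at hk
          simpa using hk.2
        · rw [← rk_cell hm k, h, rk_cell hm]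
      rw [Nat.count_eq_card_filter_range]
      rw [card_range] at a1
      simp only [hP]
      omega
    exact Nat.lt_succ_iff.1 (Nat.nth_lt_of_lt_count this)
  have hmono := Nat.nth_strictMono hinf
  have ha : Antitone fun b => γ.card + b - Nat.nth P b := by
    refine antitone_nat_of_succ_le fun b => ?_
    have := hmono (Nat.lt_succ_self b)
    simp only [Nat.succ_eq_add_one] at this
    omega
  have hz : γ.card + (lev m γ - γ.card) - Nat.nth P (lev m γ - γ.card) = 0 := by
    have a1 := Nat.le_nth_count hinf (lev m γ)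
    have a2 := hcount _ le_rfl
    rw [show Nat.count P (lev m γ) = lev m γ - γ.card by omega] at a1
    omega
  set μ := mkY _ ha _ hz
  have hμ : ∀ b, μ.rowLen b = γ.card + b - Nat.nth P b := rowLen_mkY _ _ _ _
  have b1 : μ.colLen 0 ≤ lev m γ - γ.card := by
    have := row_pos (γ := μ) (i := lev m γ - γ.card)
    rw [hμ, hz] at this
    omega
  have b2 : lev m γ ≤ Nat.nth P 0 + n := by
    by_contra hc
    exact Nat.nth_mem_of_infinite hinf 0 (top_layer hm h1 h2 (by rw [rk_cell hm]; omega))
  have b3 := hμ 0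
  have b4 := (Z_add hm μ).1
  have b5 := base_add m (m * (μ.rowLen 0 + μ.colLen 0)) (lev m γ - γ.card - μ.colLen 0)
  have b6 : m * (μ.rowLen 0 + μ.colLen 0) + (lev m γ - γ.card - μ.colLen 0) ≤ m * n := by
    have c1 : lev m γ - γ.card - μ.colLen 0 ≤ m * (lev m γ - γ.card - μ.colLen 0) :=
      Nat.le_mul_of_pos_left _ hm
    have c2 : m * (μ.rowLen 0 + μ.colLen 0 + (lev m γ - γ.card - μ.colLen 0)) ≤ m * n :=
      Nat.mul_le_mul_left m (by omega)
    rw [mul_add] at c2
    omega
  have b7 := base_mono m b6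
  refine ⟨μ, γ.card - Z m μ, ?_⟩
  ext c
  rw [mem_cells, mem_cells, mem_tl, show Z m μ + (γ.card - Z m μ) = γ.card by omega]
  have b8 : rk m c ∈ Set.range (Nat.nth P) ↔ c ∉ γ := by
    rw [Nat.range_nth_of_infinite hinf]
    simp only [hP, Set.mem_ofPred_eq, cell_rk hm]
  rw [← not_iff_not, ← b8, not_forall]
  refine exists_congr fun b => ?_
  have := hle b
  rw [hμ]
  omega

end Pool.Agent.Lib.GC95
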